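import Pool.Agent.K1H88.PG.Vec

/-! Chains over a field: existence of nondegenerate ones. -/

namespace Pool.Agent.K1H88.PG

open Matrix

variable {K : Type*} [Field K]

/-- The cross product of images. -/
theorem cof' (M : Matrix (Fin 3) (Fin 3) K) (a b : Fin 3 → K) :
    (M *ᵥ a) ⨯₃ (M *ᵥ b) = M.adjugateᵀ *ᵥ (a ⨯₃ b) := by
  apply ext3 <;>
    simp only [c0, c1, c2, mulVec, dot3, adjugate_fin_three, transpose_apply, of_apply,
      cons_val', cons_val_zero, cons_val_one, cons_val, cons_val_fin_one] <;> ring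

theorem mul_adj' (M : Matrix (Fin 3) (Fin 3) K) (v : Fin 3 → K) :
    M *ᵥ (M.adjugate *ᵥ v) = M.det • v := by
  rw [mulVec_mulVec, mul_adjugate, smul_mulVec, one_mulVec]

theorem adj_mul' (M : Matrix (Fin 3) (Fin 3) K) (v : Fin 3 → K) :
    M.adjugate *ᵥ (M *ᵥ v) = M.det • v := by
  rw [mulVec_mulVec, adjugate_mul, smul_mulVec, one_mulVec]

theorem mul_ne' {M : Matrix (Fin 3) (Fin 3) K} (hM : M.det ≠ 0) {v : Fin 3 → K} (hv : v ≠ 0) :
    M *ᵥ v ≠ 0 := by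
  intro h
  have h1 := adj_mul' M v
  rw [h, mulVec_zero] at h1
  exact (smul_eq_zero.1 h1.symm).elim hM hv

theorem adj_ne {M : Matrix (Fin 3) (Fin 3) K} (hM : M.det ≠ 0) {v : Fin 3 → K} (hv : v ≠ 0) :
    M.adjugate *ᵥ v ≠ 0 := by
  intro h
  have h1 := mul_adj' M v
  rw [h, mulVec_zero] at h1
  exact (smul_eq_zero.1 h1.symm).elim hM hv

theorem tr_dot' (M : Matrix (Fin 3) (Fin 3) K) (y z : Fin 3 → K) :
    (Mᵀ *ᵥ y) ⬝ᵥ z = y ⬝ᵥ (M *ᵥ z) := by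
  rw [mulVec_transpose, ← dotProduct_mulVec]

theorem det_tr {M : Matrix (Fin 3) (Fin 3) K} (hM : M.det ≠ 0) : Mᵀ.det ≠ 0 := by
  rwa [det_transpose]

theorem par' {y v : Fin 3 → K} (hy : y ≠ 0) (h : y ⨯₃ v = 0) : ∃ c : K, v = c • y := by
  obtain ⟨k, hk⟩ : ∃ k, y k ≠ 0 := by
    by_contra hc
    push Not at hc
    exact hy (funext hc)
  have h1 := cross_cross' (Pi.single k 1) y v
  rw [h, LinearMap.map_zero, single_one_dotProduct, single_one_dotProduct] at h1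
  refine ⟨(y k)⁻¹ * v k, ?_⟩
  have h2 : y k • v = v k • y := (sub_eq_zero.1 h1.symm).symm
  rw [mul_smul, ← h2, smul_smul, inv_mul_cancel₀ hk, one_smul]

/-- Images of vectors which are not parallel. -/
theorem cross_mul_ne {M : Matrix (Fin 3) (Fin 3) K} (hM : M.det ≠ 0) {c y : Fin 3 → K}
    (h : (M.adjugate *ᵥ c) ⨯₃ y ≠ 0) : c ⨯₃ (M *ᵥ y) ≠ 0 := by
  intro h0
  have h1 := cof' M (M.adjugate *ᵥ c) y
  rw [mul_adj', LinearMap.map_smul₂, h0, smul_zero] at h1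
  have h2 : Mᵀ *ᵥ (M.adjugateᵀ *ᵥ ((M.adjugate *ᵥ c) ⨯₃ y)) =
      M.det • ((M.adjugate *ᵥ c) ⨯₃ y) := by
    rw [mulVec_mulVec, ← transpose_mul, adjugate_mul, transpose_smul, transpose_one, smul_mulVec,
      one_mulVec]
  rw [← h1, mulVec_zero] at h2
  exact (smul_eq_zero.1 h2.symm).elim hM h

/-- A functional which is not a multiple of `n` does not vanish on the plane orthogonal to `n`. -/
theorem exists_fun {n r : Fin 3 → K} (h : r ⨯₃ n ≠ 0) : ∃ z, n ⬝ᵥ z = 0 ∧ r ⬝ᵥ z ≠ 0 := by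
  obtain ⟨k, hk⟩ : ∃ k, (r ⨯₃ n) k ≠ 0 := by
    by_contra hc
    push Not at hc
    exact h (funext hc)
  refine ⟨n ⨯₃ Pi.single k 1, dot_self_cross _ _, ?_⟩
  rw [triple_product_permutation, triple_product_permutation]
  rw [single_one_dotProduct]
  exact hk

/-- In the plane orthogonal to `u` there is a vector which is not parallel to `e`. -/
theorem exists_np {u e : Fin 3 → K} (hu : u ≠ 0) (he : e ≠ 0) : ∃ z, u ⬝ᵥ z = 0 ∧ e ⨯₃ z ≠ 0 := by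
  by_contra hc
  push Not at hc
  have h1 : ∀ k, (e k) • u = (e ⬝ᵥ u) • (Pi.single k 1 : Fin 3 → K) := by
    intro k
    have h2 := hc (u ⨯₃ Pi.single k 1) (dot_self_cross _ _)
    rw [cross_cross', dotProduct_single_one] at h2
    exact sub_eq_zero.1 h2
  obtain ⟨k, hk⟩ : ∃ k, e k ≠ 0 := by
    by_contra hc
    push Not at hc
    exact he (funext hc)
  obtain ⟨j, hj⟩ : ∃ j, j ≠ k := exists_ne k
  have h3 := congrFun (h1 k) j
  simp only [Pi.smul_apply, smul_eq_mul, Pi.single_apply, hj, if_false, mul_zero] at h3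
  have h4 : u j = 0 := (mul_eq_zero.1 h3).resolve_left hk
  have h5 := congrFun (h1 j) j
  simp only [Pi.smul_apply, smul_eq_mul, Pi.single_apply, if_true, mul_one, h4, mul_zero] at h5
  have h6 := h1 k
  rw [← h5, zero_smul] at h6
  exact (smul_eq_zero.1 h6).elim hk hu

/-- Two conditions on a plane. -/
theorem avoid {u : Fin 3 → K} {φ ψ : (Fin 3 → K) →ₗ[K] (Fin 3 → K)}
    (h1 : ∃ z, u ⬝ᵥ z = 0 ∧ φ z ≠ 0) (h2 : ∃ z, u ⬝ᵥ z = 0 ∧ ψ z ≠ 0) :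
    ∃ z, u ⬝ᵥ z = 0 ∧ φ z ≠ 0 ∧ ψ z ≠ 0 := by
  obtain ⟨a, ha, ha'⟩ := h1
  obtain ⟨b, hb, hb'⟩ := h2
  by_cases hc : ψ a = 0
  · by_cases hd : φ b = 0
    · refine ⟨a + b, by rw [dotProduct_add, ha, hb, add_zero], ?_, ?_⟩
      · rw [map_add, hd, add_zero]
        exact ha'
      · rw [map_add, hc, zero_add]
        exact hb'
    · exact ⟨b, hb, hd, hb'⟩
  · exact ⟨a, ha, ha', hc⟩

/-- The chain `y 0, …, y (n - 1)` is nondegenerate. -/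
def Pth (A : ℕ → Matrix (Fin 3) (Fin 3) K) (n : ℕ) (y : ℕ → Fin 3 → K) : Prop :=
  (∀ i, i < n → y i ≠ 0) ∧ (∀ i, i + 1 < n → y i ⬝ᵥ (A i *ᵥ y (i + 1)) = 0) ∧
    (∀ i, i + 2 < n → ((A i)ᵀ *ᵥ y i) ⨯₃ (A (i + 1) *ᵥ y (i + 2)) ≠ 0)

/-- The linear map `z ↦ c × (M z)`. -/
noncomputable def cm (c : Fin 3 → K) (M : Matrix (Fin 3) (Fin 3) K) :
    (Fin 3 → K) →ₗ[K] (Fin 3 → K) := (crossProduct c).comp M.mulVecLin

theorem cm_apply (c : Fin 3 → K) (M : Matrix (Fin 3) (Fin 3) K) (z : Fin 3 → K) :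
    cm c M z = c ⨯₃ (M *ᵥ z) := rfl

theorem Pth.ext {A : ℕ → Matrix (Fin 3) (Fin 3) K} (hA : ∀ i, (A i).det ≠ 0) {n : ℕ}
    {y : ℕ → Fin 3 → K} (h : Pth A (n + 1) y) (φ : (Fin 3 → K) →ₗ[K] (Fin 3 → K))
    (hφ : ∃ z, ((A n)ᵀ *ᵥ y n) ⬝ᵥ z = 0 ∧ φ z ≠ 0) :
    ∃ z, Pth A (n + 2) (Function.update y (n + 1) z) ∧ φ z ≠ 0 := by
  obtain ⟨h1, h2, h3⟩ := h
  have hu : (A n)ᵀ *ᵥ y n ≠ 0 := mul_ne' (det_tr (hA n)) (h1 n (by omega))
  -- the nondegeneracy with the previous vertex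
  obtain ⟨ψ, hψ, hψ'⟩ : ∃ ψ : (Fin 3 → K) →ₗ[K] (Fin 3 → K),
      (∃ z, ((A n)ᵀ *ᵥ y n) ⬝ᵥ z = 0 ∧ ψ z ≠ 0) ∧ ∀ z, ψ z ≠ 0 → z ≠ 0 ∧
        (∀ i, i + 1 = n → ((A i)ᵀ *ᵥ y i) ⨯₃ (A n *ᵥ z) ≠ 0) := by
    rcases n with _ | n
    · refine ⟨LinearMap.id, ?_, fun z hz => ⟨hz, fun i hi => by omega⟩⟩
      obtain ⟨z, hz, hz'⟩ := exists_np hu hu
      refine ⟨z, hz, ?_⟩
      rintro rfl
      apply hz'
      simp
    · have hc : (A n)ᵀ *ᵥ y n ≠ 0 := mul_ne' (det_tr (hA n)) (h1 n (by omega))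
      refine ⟨cm ((A n)ᵀ *ᵥ y n) (A (n + 1)), ?_, ?_⟩
      · obtain ⟨z, hz, hz'⟩ := exists_np hu (adj_ne (hA (n + 1)) hc)
        exact ⟨z, hz, cross_mul_ne (hA (n + 1)) hz'⟩
      · intro z hz
        rw [cm_apply] at hz
        constructor
        · rintro rfl
          apply hz
          rw [mulVec_zero]
          simp
        · intro i hi
          obtain rfl : i = n := by omega
          exact hz
  obtain ⟨z, hz, hz1, hz2⟩ := avoid hφ hψ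
  obtain ⟨hz3, hz4⟩ := hψ' z hz2
  refine ⟨z, ⟨?_, ?_, ?_⟩, hz1⟩
  · intro i hi
    by_cases hi' : i = n + 1
    · rw [hi', Function.update_self]
      exact hz3
    · rw [Function.update_of_ne hi']
      exact h1 i (by omega)
  · intro i hi
    rw [Function.update_of_ne (show i ≠ n + 1 by omega)]
    by_cases hi' : i = n
    · rw [hi', Function.update_self, ← tr_dot']
      exact hz
    · rw [Function.update_of_ne (show i + 1 ≠ n + 1 by omega)]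
      exact h2 i (by omega)
  · intro i hi
    rw [Function.update_of_ne (show i ≠ n + 1 by omega)]
    by_cases hi' : i + 1 = n
    · rw [show i + 2 = n + 1 by omega, Function.update_self, hi']
      exact hz4 i hi'
    · rw [Function.update_of_ne (show i + 2 ≠ n + 1 by omega)]
      exact h3 i (by omega)

/-- Chains of any length with a given first vertex. -/
theorem exists_Pth {A : ℕ → Matrix (Fin 3) (Fin 3) K} (hA : ∀ i, (A i).det ≠ 0) {v : Fin 3 → K}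
    (hv : v ≠ 0) (n : ℕ) : ∃ y, Pth A (n + 1) y ∧ y 0 = v := by
  induction n with
  | zero =>
    refine ⟨fun _ => v, ⟨fun i _ => hv, fun i hi => by omega, fun i hi => by omega⟩, rfl⟩
  | succ n ih =>
    obtain ⟨y, hy, hy0⟩ := ih
    have hu : (A n)ᵀ *ᵥ y n ≠ 0 := mul_ne' (det_tr (hA n)) (hy.1 n (by omega))
    obtain ⟨z, hz, -⟩ := hy.ext hA LinearMap.id (by
      obtain ⟨z, hz, hz'⟩ := exists_np hu hu
      refine ⟨z, hz, ?_⟩
      rintro rfl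
      apply hz'
      simp)
    refine ⟨_, hz, ?_⟩
    rw [Function.update_of_ne (by omega)]
    exact hy0

/-- The covector of the form `δ`. -/
def cov (A B C : Matrix (Fin 3) (Fin 3) K) (w : Fin 3 → K) : Fin 3 → K :=
  A *ᵥ (B.adjugateᵀ *ᵥ (C *ᵥ w))

theorem cov_ne {A B C : Matrix (Fin 3) (Fin 3) K} (hA : A.det ≠ 0) (hB : B.det ≠ 0)
    (hC : C.det ≠ 0) {w : Fin 3 → K} (hw : w ≠ 0) : cov A B C w ≠ 0 := by
  unfold cov
  apply mul_ne' hA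
  rw [adjugate_transpose]
  exact adj_ne (det_tr hB) (mul_ne' hC hw)

/-- Chains with `n + 3` vertices and nondegenerate closing pencil. -/
theorem exists_long {A : ℕ → Matrix (Fin 3) (Fin 3) K} (hA : ∀ i, (A i).det ≠ 0)
    (L B C : Matrix (Fin 3) (Fin 3) K) (hL : L.det ≠ 0) (hB : B.det ≠ 0) (hC : C.det ≠ 0) (n : ℕ) :
    ∃ y, Pth A (n + 3) y ∧ cov L B C (y 0) ⬝ᵥ y (n + 2) ≠ 0 := by
  have hv : (Pi.single 0 1 : Fin 3 → K) ≠ 0 := by
    intro h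
    have := congrFun h 0
    simp at this
  obtain ⟨y, hy, hy0⟩ := exists_Pth hA hv n
  set r := cov L B C (y 0) with hr
  have hr0 : r ≠ 0 := cov_ne hL hB hC (hy.1 0 (by omega))
  have hu : (A n)ᵀ *ᵥ y n ≠ 0 := mul_ne' (det_tr (hA n)) (hy.1 n (by omega))
  obtain ⟨z, hz, hz'⟩ := hy.ext hA (cm r (A (n + 1))ᵀ) (by
    obtain ⟨z, hz, hz'⟩ := exists_np hu (adj_ne (det_tr (hA (n + 1))) hr0)
    exact ⟨z, hz, cross_mul_ne (det_tr (hA (n + 1))) hz'⟩)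
  rw [cm_apply] at hz'
  set y1 := Function.update y (n + 1) z with hy1
  have e1 : y1 (n + 1) = z := Function.update_self ..
  have e0 : y1 0 = y 0 := Function.update_of_ne (by omega) ..
  obtain ⟨s, hs, hs'⟩ := exists_fun hz'
  obtain ⟨w, hw, hw'⟩ := hz.ext hA (LinearMap.toSpanSingleton K (Fin 3 → K) r ∘ₗ
      (dotProductBilin K K r)) (by
    refine ⟨s, by rw [e1]; exact hs, ?_⟩
    simp only [LinearMap.comp_apply, dotProductBilin_apply_apply, LinearMap.toSpanSingleton_apply]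
    exact smul_ne_zero hs' hr0)
  refine ⟨_, hw, ?_⟩
  rw [Function.update_self, Function.update_of_ne (by omega), e0, ← hr]
  intro h0
  apply hw'
  simp only [LinearMap.comp_apply, dotProductBilin_apply_apply, LinearMap.toSpanSingleton_apply]
  rw [h0, zero_smul]

/-- The last vertex of the nondegenerate pencil. -/
theorem last_ne {B : Matrix (Fin 3) (Fin 3) K} (hB : B.det ≠ 0) {u w Y : Fin 3 → K}
    (hδ : (B.adjugate *ᵥ u) ⬝ᵥ w ≠ 0) (hY : Y ≠ 0) (huY : u ⬝ᵥ Y = 0) :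
    (Bᵀ *ᵥ Y) ⨯₃ w ≠ 0 ∧ u ⨯₃ (B *ᵥ ((Bᵀ *ᵥ Y) ⨯₃ w)) ≠ 0 := by
  have hb : Bᵀ *ᵥ Y ≠ 0 := mul_ne' (det_tr hB) hY
  have e1 : (B.adjugate *ᵥ u) ⬝ᵥ (Bᵀ *ᵥ Y) = 0 := by
    rw [dotProduct_comm, tr_dot', mul_adj', dotProduct_smul, dotProduct_comm, huY, smul_zero]
  have hu : u ≠ 0 := by
    rintro rfl
    apply hδ
    rw [mulVec_zero, zero_dotProduct]
  have h1 : (Bᵀ *ᵥ Y) ⨯₃ w ≠ 0 := by
    intro h
    obtain ⟨c, hc⟩ := par' hb h
    apply hδ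
    rw [hc, dotProduct_smul, e1, smul_zero]
  refine ⟨h1, ?_⟩
  intro h
  set Z := (Bᵀ *ᵥ Y) ⨯₃ w with hZ
  obtain ⟨c, hc⟩ := par' hu h
  have h2 := adj_mul' B Z
  rw [hc, mulVec_smul] at h2
  have h3 : Z ⬝ᵥ w = 0 := by
    rw [hZ, dotProduct_comm]
    exact dot_cross_self _ _
  have h4 := congrArg (fun v => v ⬝ᵥ w) h2
  simp only [smul_dotProduct, h3, mul_zero, smul_eq_mul] at h4
  have h5 : c = 0 := (mul_eq_zero.1 h4).resolve_right hδ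
  rw [h5, zero_smul] at hc
  exact mul_ne' hB h1 hc

/-- The closing pencil for at least four vertices. -/
theorem close {B D : Matrix (Fin 3) (Fin 3) K} (hB : B.det ≠ 0) (hD : D.det ≠ 0)
    {u w c : Fin 3 → K} (hδ : (B.adjugate *ᵥ u) ⬝ᵥ w ≠ 0) (hc : c ≠ 0)
    (φ : (Fin 3 → K) →ₗ[K] (Fin 3 → K)) (hφ : ∃ z, u ⬝ᵥ z = 0 ∧ φ z ≠ 0) :
    ∃ Y Z, Y ≠ 0 ∧ Z ≠ 0 ∧ u ⬝ᵥ Y = 0 ∧ Z ⬝ᵥ w = 0 ∧ Y ⬝ᵥ (B *ᵥ Z) = 0 ∧ u ⨯₃ (B *ᵥ Z) ≠ 0 ∧
      (Bᵀ *ᵥ Y) ⨯₃ w ≠ 0 ∧ φ Y ≠ 0 ∧ (Dᵀ *ᵥ Z) ⨯₃ c ≠ 0 := by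
  have hu : u ≠ 0 := by
    rintro rfl
    apply hδ
    rw [mulVec_zero, zero_dotProduct]
  set e := (Dᵀ).adjugate *ᵥ c with he
  have he0 : e ≠ 0 := adj_ne (det_tr hD) hc
  -- the map to the second vertex
  set ψ : (Fin 3 → K) →ₗ[K] (Fin 3 → K) :=
    (crossProduct e) ∘ₗ (-(crossProduct w)) ∘ₗ (Bᵀ).mulVecLin with hψ
  have hψa : ∀ z, ψ z = e ⨯₃ ((Bᵀ *ᵥ z) ⨯₃ w) := fun z => by
    rw [hψ]
    simp only [LinearMap.comp_apply, LinearMap.neg_apply, mulVecLin_apply, cross_anticomm]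
  have hex : ∃ z, u ⬝ᵥ z = 0 ∧ ψ z ≠ 0 := by
    by_cases hew : e ⬝ᵥ w = 0
    · have h1 : (B *ᵥ e) ⨯₃ u ≠ 0 := by
        intro h
        obtain ⟨k, hk⟩ := par' hu (by rw [← cross_anticomm, h, neg_zero])
        have h2 := adj_mul' B e
        rw [hk, mulVec_smul] at h2
        have h4 := congrArg (fun v => v ⬝ᵥ w) h2
        simp only [smul_dotProduct, hew, mul_zero, smul_eq_mul] at h4
        have h5 : k = 0 := (mul_eq_zero.1 h4).resolve_right hδ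
        rw [h5, zero_smul] at hk
        exact mul_ne' hB he0 hk
      obtain ⟨z, hz, hz'⟩ := exists_fun h1
      refine ⟨z, hz, ?_⟩
      rw [hψa, cross_cross', hew, zero_smul, zero_sub, neg_ne_zero]
      apply smul_ne_zero
      · rw [dotProduct_comm, tr_dot', dotProduct_comm]
        exact hz'
      · rintro rfl
        apply hδ
        rw [dotProduct_zero]
    · obtain ⟨z, hz, hz'⟩ := exists_np hu hu
      have hz0 : z ≠ 0 := by
        rintro rfl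
        apply hz'
        simp
      refine ⟨z, hz, ?_⟩
      rw [hψa]
      intro h
      have h1 := (last_ne hB hδ hz0 hz).1
      obtain ⟨k, hk⟩ := par' he0 h
      have h2 : w ⬝ᵥ ((Bᵀ *ᵥ z) ⨯₃ w) = 0 := dot_cross_self _ _
      rw [hk, dotProduct_smul, dotProduct_comm, smul_eq_mul] at h2
      have h3 : k = 0 := (mul_eq_zero.1 h2).resolve_right hew
      rw [h3, zero_smul] at hk
      exact h1 hk
  obtain ⟨Y, hY, hY1, hY2⟩ := avoid hφ hex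
  have hY0 : Y ≠ 0 := by
    rintro rfl
    apply hY1
    rw [map_zero]
  obtain ⟨g1, g2⟩ := last_ne hB hδ hY0 hY
  refine ⟨Y, (Bᵀ *ᵥ Y) ⨯₃ w, hY0, g1, hY, ?_, ?_, g2, g1, hY1, ?_⟩
  · rw [dotProduct_comm]
    exact dot_cross_self _ _
  · rw [← tr_dot']
    exact dot_self_cross _ _
  · rw [hψa] at hY2
    have h := cross_mul_ne (det_tr hD) hY2
    intro h0
    apply h
    rw [← cross_anticomm, h0, neg_zero]

/-- A quadratic form whose symmetric matrix is nonsingular does not vanish on a plane. -/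
theorem exists_quad {G : Matrix (Fin 3) (Fin 3) K} (hG : ∀ v, v ≠ 0 → G *ᵥ v + Gᵀ *ᵥ v ≠ 0)
    {u : Fin 3 → K} (hu : u ≠ 0) : ∃ z, z ≠ 0 ∧ u ⬝ᵥ z = 0 ∧ (G *ᵥ z) ⬝ᵥ z ≠ 0 := by
  by_contra hc
  push Not at hc
  have hc' : ∀ z, u ⬝ᵥ z = 0 → (G *ᵥ z) ⬝ᵥ z = 0 := by
    intro z hz
    by_cases h0 : z = 0
    · rw [h0, dotProduct_zero]
    · exact hc z h0 hz
  -- the polar form
  have h1 : ∀ v z, u ⬝ᵥ v = 0 → u ⬝ᵥ z = 0 → (G *ᵥ v + Gᵀ *ᵥ v) ⬝ᵥ z = 0 := by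
    intro v z hv hz
    have e1 := hc' (v + z) (by rw [dotProduct_add, hv, hz, add_zero])
    have e2 := hc' v hv
    have e3 := hc' z hz
    rw [mulVec_add, add_dotProduct, dotProduct_add, dotProduct_add, e2, e3] at e1
    rw [add_dotProduct, tr_dot', dotProduct_comm v]
    linear_combination e1
  have h2 : ∀ v, u ⬝ᵥ v = 0 → ∃ k : K, G *ᵥ v + Gᵀ *ᵥ v = k • u := by
    intro v hv
    have h3 : (G *ᵥ v + Gᵀ *ᵥ v) ⨯₃ u = 0 := by
      by_contra h3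
      obtain ⟨z, hz, hz'⟩ := exists_fun h3
      exact hz' (h1 v z hv hz)
    exact par' hu (by rw [← cross_anticomm, h3, neg_zero])
  obtain ⟨a, ha, ha'⟩ := exists_np hu hu
  have ha0 : a ≠ 0 := by
    rintro rfl
    apply ha'
    simp
  obtain ⟨b, hb, hb'⟩ := exists_np hu ha0
  obtain ⟨k, hk⟩ := h2 a ha
  obtain ⟨j, hj⟩ := h2 b hb
  have hk0 : k ≠ 0 := by
    rintro rfl
    apply hG a ha0
    rw [hk, zero_smul]
  apply hG (k • b - j • a)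
  · intro h
    have h4 := congrArg (fun v => a ⨯₃ v) h
    simp only [map_sub, map_smul, cross_self, smul_zero, sub_zero, map_zero] at h4
    exact (smul_eq_zero.1 h4).elim hk0 hb'
  · rw [mulVec_sub, mulVec_sub, mulVec_smul, mulVec_smul, mulVec_smul, mulVec_smul]
    have : k • G *ᵥ b - j • G *ᵥ a + (k • Gᵀ *ᵥ b - j • Gᵀ *ᵥ a) =
        k • (G *ᵥ b + Gᵀ *ᵥ b) - j • (G *ᵥ a + Gᵀ *ᵥ a) := by
      rw [smul_add, smul_add]
      abel
    rw [this, hk, hj, smul_smul, smul_smul, mul_comm, sub_self]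

end Pool.Agent.K1H88.PG
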