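import Pool.Agent.K1H88.PG.Vec

/-! Counting primitive vectors whose pairwise cross products are small multiples of a vector, and
the bookkeeping of counting by fibres. -/

namespace Pool.Agent.K1H88.PG

open Matrix
open Pool.Agent.H548.WM (ht Rep le_ht' ht_le)

theorem card_le (S : Finset V) (hS : ∀ y ∈ S, Rep y) (e : V) (he : e ≠ 0) (D : ℤ) (hD : D ≠ 0)
    (K : ℝ) (hK : 0 ≤ K)
    (h : ∀ y ∈ S, ∀ y' ∈ S, ∃ k : ℤ, D • (y ⨯₃ y') = k • e ∧ |(k : ℝ)| ≤ K) :
    (S.card : ℝ) ≤ 1 + 9 * K := by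
  classical
  rcases S.eq_empty_or_nonempty with rfl | hne
  · simp only [Finset.card_empty, Nat.cast_zero]
    positivity
  have h' : ∀ y y' : V, ∃ k : ℤ, y ∈ S → y' ∈ S → D • (y ⨯₃ y') = k • e ∧ |(k : ℝ)| ≤ K := by
    intro y y'
    by_cases hy : y ∈ S ∧ y' ∈ S
    · obtain ⟨k, hk⟩ := h y hy.1 y' hy.2
      exact ⟨k, fun _ _ => hk⟩
    · exact ⟨0, fun h1 h2 => absurd ⟨h1, h2⟩ hy⟩
  choose κ hκ using h'
  have hinj : ∀ k k' : ℤ, k • e = k' • e → k = k' := fun k k' hk => by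
    have h1 : (k - k') • e = 0 := by rw [sub_smul, hk, sub_self]
    rcases smul_eq_zero.1 h1 with h2 | h2
    · linarith [sub_eq_zero.1 h2]
    · exact absurd h2 he
  obtain ⟨p, hp, hmax⟩ := Finset.exists_max_image (S ×ˢ S) (fun q => |κ q.1 q.2|)
    (hne.product hne)
  obtain ⟨y0, y1⟩ := p
  rw [Finset.mem_product] at hp
  obtain ⟨hy0, hy1⟩ := hp
  simp only at hy0 hy1 hmax
  set B := |κ y0 y1| with hB
  have hBd : ∀ y ∈ S, ∀ y' ∈ S, |κ y y'| ≤ B := fun y hy y' hy' =>
    hmax (y, y') (Finset.mem_product.2 ⟨hy, hy'⟩)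
  have hBK : (B : ℝ) ≤ K := by
    rw [hB]
    push_cast
    exact (hκ y0 y1 hy0 hy1).2
  rcases eq_or_ne B 0 with hB0 | hB0
  · have h1 : S.card ≤ 1 := by
      rw [Finset.card_le_one]
      intro a ha b hb
      apply par_eq (hS a ha) (hS b hb)
      have h2 := hBd a ha b hb
      rw [hB0] at h2
      have h3 : κ a b = 0 := abs_eq_zero.1 (le_antisymm h2 (abs_nonneg _))
      have h4 := (hκ a b ha hb).1
      rw [h3, zero_smul] at h4
      exact (smul_eq_zero.1 h4).resolve_left hD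
    have h2 : (S.card : ℝ) ≤ 1 := by exact_mod_cast h1
    linarith
  have hBp : 0 < B := lt_of_le_of_ne (abs_nonneg _) (Ne.symm hB0)
  have hanti : κ y1 y0 = - κ y0 y1 := by
    apply hinj
    rw [← (hκ y1 y0 hy1 hy0).1, neg_smul, ← (hκ y0 y1 hy0 hy1).1, ← smul_neg, cross_anticomm]
  -- the map
  have hcard : S.card ≤ (Finset.Icc (-B) B ×ˢ Finset.Icc (0 : ℤ) 2).card := by
    apply Finset.card_le_card_of_injOn (fun y => (κ y0 y, (κ y1 y + B) / B))
    · intro y hy
      have hy : y ∈ S := hy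
      have h1 := abs_le.1 (hBd y0 hy0 y hy)
      have h2 := abs_le.1 (hBd y1 hy1 y hy)
      have h3 : 0 ≤ (κ y1 y + B) / B := Int.ediv_nonneg (by linarith [h2.1]) hBp.le
      have h4 : (κ y1 y + B) / B ≤ 2 := by
        apply Int.ediv_le_of_le_mul hBp
        linarith [h2.2]
      simp only [Finset.coe_product, Finset.coe_Icc, Set.mem_prod, Set.mem_Icc]
      exact ⟨⟨h1.1, h1.2⟩, h3, h4⟩
    · intro y hy y' hy' heq
      have hy : y ∈ S := hy
      have hy' : y' ∈ S := hy'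
      simp only [Prod.mk.injEq] at heq
      obtain ⟨e1, e2⟩ := heq
      have h1 : D • (y0 ⨯₃ (y - y')) = 0 := by
        rw [LinearMap.map_sub, smul_sub, (hκ y0 y hy0 hy).1, (hκ y0 y' hy0 hy').1, e1, sub_self]
      obtain ⟨n, hn⟩ := par (hS y0 hy0) ((smul_eq_zero.1 h1).resolve_left hD)
      have h2 : κ y1 y - κ y1 y' = n * κ y1 y0 := by
        apply hinj
        rw [sub_smul, mul_smul, ← (hκ y1 y hy1 hy).1, ← (hκ y1 y' hy1 hy').1,
          ← (hκ y1 y0 hy1 hy0).1, ← smul_sub, ← LinearMap.map_sub, hn, LinearMap.map_smul,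
          smul_comm]
      have h3 : |κ y1 y - κ y1 y'| < B := by
        have a1 := Int.emod_nonneg (κ y1 y + B) hB0
        have a2 := Int.emod_lt_of_pos (κ y1 y + B) hBp
        have a3 := Int.emod_nonneg (κ y1 y' + B) hB0
        have a4 := Int.emod_lt_of_pos (κ y1 y' + B) hBp
        have a5 := Int.emod_add_mul_ediv (κ y1 y + B) B
        have a6 := Int.emod_add_mul_ediv (κ y1 y' + B) B
        rw [← e2] at a6
        rw [abs_lt]
        constructor <;> linarith
      have h4 : |n| * B < 1 * B := by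
        rw [one_mul]
        calc |n| * B = |n| * |κ y1 y0| := by rw [hanti, abs_neg, hB]
          _ = |κ y1 y - κ y1 y'| := by rw [h2, abs_mul]
          _ < B := h3
      have h5 : |n| < 1 := lt_of_mul_lt_mul_right h4 hBp.le
      have h6 : n = 0 := Int.abs_lt_one_iff.1 h5
      rw [h6, zero_smul] at hn
      exact sub_eq_zero.1 hn
  rw [Finset.card_product, Int.card_Icc, Int.card_Icc] at hcard
  have h7 : (S.card : ℤ) ≤ (B + 1 - -B).toNat * ((2 : ℤ) + 1 - 0).toNat := by exact_mod_cast hcard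
  rw [Int.toNat_of_nonneg (by linarith), Int.toNat_of_nonneg (by norm_num)] at h7
  have h8 : (S.card : ℤ) ≤ 9 * B := by
    have : 1 ≤ B := hBp
    linarith
  have h9 : (S.card : ℝ) ≤ 9 * (B : ℝ) := by exact_mod_cast h8
  linarith

/-- The set is finite with at most `K` elements. -/
def Bd {α : Type*} (S : Set α) (K : ℝ) : Prop := S.Finite ∧ (S.ncard : ℝ) ≤ K

theorem Bd.nonneg {α : Type*} {S : Set α} {K : ℝ} (h : Bd S K) : 0 ≤ K :=
  (Nat.cast_nonneg _).trans h.2

theorem Bd.mono {α : Type*} {S T : Set α} {K L : ℝ} (h : Bd T K) (hST : S ⊆ T) (hKL : K ≤ L) :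
    Bd S L := by
  refine ⟨h.1.subset hST, le_trans ?_ (h.2.trans hKL)⟩
  exact_mod_cast Set.ncard_le_ncard hST h.1

theorem Bd.empty {α : Type*} {K : ℝ} (hK : 0 ≤ K) : Bd (∅ : Set α) K := by
  refine ⟨Set.finite_empty, ?_⟩
  rw [Set.ncard_empty]
  simpa using hK

theorem Bd.inj {α β : Type*} {S : Set α} {T : Set β} {K : ℝ} (h : Bd T K) (f : α → β)
    (hf : Set.MapsTo f S T) (hi : Set.InjOn f S) : Bd S K := by
  have h1 : S.Finite := Set.Finite.of_injOn hf hi h.1
  refine ⟨h1, le_trans ?_ h.2⟩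
  exact_mod_cast Set.ncard_le_ncard_of_injOn f hf hi h.1

theorem Bd.fib {α β : Type*} {S : Set α} {T : Set β} {K L : ℝ} (h : Bd T K) (f : α → β)
    (hf : Set.MapsTo f S T) (hL : 0 ≤ L) (hi : ∀ b ∈ T, Bd {a ∈ S | f a = b} L) :
    Bd S (L * K) := by
  classical
  have e : S = ⋃ b ∈ T, {a ∈ S | f a = b} := by
    ext a
    simp only [Set.mem_iUnion, Set.mem_setOf_eq, exists_prop]
    constructor
    · intro ha
      exact ⟨f a, hf ha, ha, rfl⟩
    · rintro ⟨b, -, ha, -⟩
      exact ha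
  have hfin : S.Finite := by
    rw [e]
    exact h.1.biUnion fun b hb => (hi b hb).1
  refine ⟨hfin, ?_⟩
  have h1 : hfin.toFinset.card ≤ ∑ b ∈ h.1.toFinset, (hfin.toFinset.filter fun a => f a = b).card := by
    rw [Finset.card_eq_sum_card_fiberwise (f := f) (t := h.1.toFinset)]
    intro a ha
    have ha' : a ∈ S := by simpa using ha
    have := hf ha'
    simpa using this
  have h2 : ∀ b ∈ h.1.toFinset, ((hfin.toFinset.filter fun a => f a = b).card : ℝ) ≤ L := by
    intro b hb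
    have hb' : b ∈ T := by simpa using hb
    refine le_trans ?_ (hi b hb').2
    rw [Set.ncard_eq_toFinset_card _ (hi b hb').1]
    have : (hfin.toFinset.filter fun a => f a = b) ⊆ (hi b hb').1.toFinset := by
      intro a ha
      rw [Finset.mem_filter] at ha
      simp only [Set.Finite.mem_toFinset, Set.mem_setOf_eq]
      exact ⟨by simpa using ha.1, ha.2⟩
    exact_mod_cast Finset.card_le_card this
  rw [Set.ncard_eq_toFinset_card _ hfin]
  calc (hfin.toFinset.card : ℝ)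
      ≤ ((∑ b ∈ h.1.toFinset, (hfin.toFinset.filter fun a => f a = b).card : ℕ) : ℝ) := by
        exact_mod_cast h1
    _ = ∑ b ∈ h.1.toFinset, ((hfin.toFinset.filter fun a => f a = b).card : ℝ) := by push_cast; rfl
    _ ≤ ∑ _b ∈ h.1.toFinset, L := Finset.sum_le_sum h2
    _ = L * h.1.toFinset.card := by rw [Finset.sum_const, nsmul_eq_mul, mul_comm]
    _ ≤ L * K := by
        apply mul_le_mul_of_nonneg_left _ hL
        rw [← Set.ncard_eq_toFinset_card _ h.1]
        exact h.2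

theorem Bd.prod {α β : Type*} {S : Set α} {T : Set β} {K L : ℝ} (h : Bd S K) (h' : Bd T L) :
    Bd (S ×ˢ T) (K * L) := by
  refine ⟨h.1.prod h'.1, ?_⟩
  rw [Set.ncard_prod]
  push_cast
  exact mul_le_mul h.2 h'.2 (Nat.cast_nonneg _) h.nonneg

end Pool.Agent.K1H88.PG
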