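import Mathlib

/-! A path always has an end which is not too small or two adjacent inner vertices which are not
too small against their neighbours. -/

namespace Pool.Agent.K1H88.PG

theorem comb (κ : ℝ) (hκ : 1 ≤ κ) (X : ℕ → ℝ) (hX : ∀ i, 1 ≤ X i) (n : ℕ) (hn : 2 ≤ n)
    (c1 : 3 ≤ n → X 1 ≤ κ * X 0 * X 2) (c2 : 3 ≤ n → X (n - 2) ≤ κ * X (n - 3) * X (n - 1)) :
    X (n - 2) ≤ κ * X (n - 1) ^ 2 ∨ X 1 ≤ κ * X 0 ^ 2 ∨
      ∃ j, j + 3 < n ∧ X j * X (j + 3) ≤ κ * (X (j + 1) * X (j + 2)) := by
  by_contra hc
  push Not at hc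
  obtain ⟨h1, h2, h3⟩ := hc
  have pos : ∀ i, 0 < X i := fun i => lt_of_lt_of_le one_pos (hX i)
  have sq : ∀ i, X i ≤ κ * X i ^ 2 := fun i => by
    have := hX i
    nlinarith [mul_le_mul hκ this zero_le_one (by linarith : (0 : ℝ) ≤ κ)]
  have step : ∀ j, j + 3 < n → X (j + 1) * X (j + 2) < X j * X (j + 3) := fun j hj => by
    refine lt_of_le_of_lt ?_ (h3 j hj)
    have : 0 < X (j + 1) * X (j + 2) := mul_pos (pos _) (pos _)
    nlinarith
  rcases Nat.even_or_odd n with he | ho
  · obtain ⟨m, hm⟩ := he
    have key : ∀ k, 2 * k + 1 < n → X (2 * k) < X (2 * k + 1) := by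
      intro k
      induction k with
      | zero =>
        intro _
        exact lt_of_le_of_lt (sq 0) h2
      | succ k ih =>
        intro hk
        have i1 := ih (by omega)
        have i2 := step (2 * k) (by omega)
        have e1 : 2 * (k + 1) = 2 * k + 2 := by ring
        rw [e1]
        by_contra hcon
        push Not at hcon
        have p0 := pos (2 * k)
        have p2 := pos (2 * k + 2)
        have : X (2 * k) * X (2 * k + 3) ≤ X (2 * k + 1) * X (2 * k + 2) := by
          calc X (2 * k) * X (2 * k + 3) ≤ X (2 * k) * X (2 * k + 2) :=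
                mul_le_mul_of_nonneg_left hcon p0.le
            _ ≤ X (2 * k + 1) * X (2 * k + 2) := mul_le_mul_of_nonneg_right i1.le p2.le
        linarith
    have h4 := key (m - 1) (by omega)
    have e1 : 2 * (m - 1) = n - 2 := by omega
    have e2 : n - 2 + 1 = n - 1 := by omega
    rw [e1, e2] at h4
    have h5 := sq (n - 1)
    linarith
  · obtain ⟨m, hm⟩ := ho
    have hn3 : 3 ≤ n := by omega
    have key : ∀ k, 2 * k + 2 < n → X (2 * k) < X (2 * k + 2) := by
      intro k
      induction k with
      | zero =>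
        intro _
        have i1 := c1 hn3
        by_contra hcon
        push Not at hcon
        have : κ * X 0 * X 2 ≤ κ * X 0 ^ 2 := by
          calc κ * X 0 * X 2 ≤ κ * X 0 * X 0 :=
                mul_le_mul_of_nonneg_left hcon (mul_nonneg (by linarith) (pos 0).le)
            _ = κ * X 0 ^ 2 := by ring
        linarith
      | succ k ih =>
        intro hk
        have i1 := ih (by omega)
        have i2 := step (2 * k) (by omega)
        have i3 := step (2 * k + 1) (by omega)
        have e1 : 2 * (k + 1) = 2 * k + 2 := by ring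
        rw [e1]
        have e2 : 2 * k + 1 + 1 = 2 * k + 2 := by ring
        have e3 : 2 * k + 1 + 2 = 2 * k + 3 := by ring
        have e4 : 2 * k + 1 + 3 = 2 * k + 2 + 2 := by ring
        rw [e2, e3, e4] at i3
        by_contra hcon
        push Not at hcon
        have p0 := pos (2 * k)
        have p1 := pos (2 * k + 1)
        have p2 := pos (2 * k + 2)
        have p3 := pos (2 * k + 3)
        -- `X (2k+3) < X (2k+1)`
        have j1 : X (2 * k + 2) * X (2 * k + 3) < X (2 * k + 2) * X (2 * k + 1) := by
          calc X (2 * k + 2) * X (2 * k + 3) < X (2 * k + 1) * X (2 * k + 2 + 2) := i3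
            _ ≤ X (2 * k + 1) * X (2 * k + 2) := mul_le_mul_of_nonneg_left hcon p1.le
            _ = _ := mul_comm _ _
        have j2 : X (2 * k + 3) < X (2 * k + 1) := lt_of_mul_lt_mul_left j1 p2.le
        have j3 : X (2 * k) * X (2 * k + 3) < X (2 * k + 1) * X (2 * k + 2) := by
          calc X (2 * k) * X (2 * k + 3) ≤ X (2 * k + 2) * X (2 * k + 3) :=
                mul_le_mul_of_nonneg_right i1.le p3.le
            _ < X (2 * k + 2) * X (2 * k + 1) := mul_lt_mul_of_pos_left j2 p2
            _ = _ := mul_comm _ _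
        linarith
    have h4 := key (m - 1) (by omega)
    have e1 : 2 * (m - 1) = n - 3 := by omega
    have e2 : n - 3 + 2 = n - 1 := by omega
    rw [e1, e2] at h4
    have h5 := c2 hn3
    have h6 : κ * X (n - 3) * X (n - 1) ≤ κ * X (n - 1) ^ 2 := by
      calc κ * X (n - 3) * X (n - 1) ≤ κ * X (n - 1) * X (n - 1) := by
            apply mul_le_mul_of_nonneg_right _ (pos _).le
            exact mul_le_mul_of_nonneg_left h4.le (by linarith)
        _ = κ * X (n - 1) ^ 2 := by ring
    linarith

end Pool.Agent.K1H88.PG
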