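import Pool.Agent.K1H88.PG.Path

/-! Closed chains. -/

namespace Pool.Agent.K1H88.PG

open Matrix
open Pool.Agent.H548.WM (ht Rep le_ht' ht_le mem_bx)

variable {m : ℕ} [NeZero m]

/-- The closed chains with heights in dyadic intervals. -/
def Cyc (A : ZMod m → Matrix (Fin 3) (Fin 3) ℤ) (X : ZMod m → ℝ) : Set (ZMod m → V) :=
  {x | (∀ i, Rep (x i) ∧ X i ≤ ht (x i) ∧ (ht (x i) : ℝ) ≤ 2 * X i) ∧
    (∀ i, x i ⬝ᵥ (A i *ᵥ x (i + 1)) = 0) ∧
    (∀ i, ((A i)ᵀ *ᵥ x i) ⨯₃ (A (i + 1) *ᵥ x (i + 2)) ≠ 0)}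

theorem exists_big (X : ZMod m → ℝ) (hX : ∀ i, 1 ≤ X i) :
    ∃ i, X (i - 1) * X (i + 2) ≤ X i * X (i + 1) := by
  by_contra hc
  push Not at hc
  have pos : ∀ i, 0 < X i := fun i => lt_of_lt_of_le one_pos (hX i)
  have h1 : ∏ i, X i * X (i + 1) < ∏ i, X (i - 1) * X (i + 2) :=
    Finset.prod_lt_prod_of_nonempty (fun i _ => mul_pos (pos _) (pos _)) (fun i _ => hc i)
      Finset.univ_nonempty
  have h2 : ∀ k : ZMod m, ∏ i, X (i + k) = ∏ i, X i := fun k =>
    Equiv.prod_comp (Equiv.addRight k) X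
  have h3 : ∏ i, X (i - 1) = ∏ i, X i := by
    have := h2 (-1)
    simpa only [← sub_eq_add_neg] using this
  rw [Finset.prod_mul_distrib, Finset.prod_mul_distrib, h2, h2, h3] at h1
  exact lt_irrefl _ h1

theorem prod_Ico (f : ZMod m → ℝ) (s : ℕ) :
    ∏ j ∈ Finset.Ico s (s + m), f (j : ZMod m) = ∏ i, f i := by
  have hm : 0 < m := Nat.pos_of_ne_zero (NeZero.ne m)
  apply Finset.prod_nbij (fun j : ℕ => (j : ZMod m))
  · intro j _
    exact Finset.mem_univ _
  · intro j hj j' hj' h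
    rw [Finset.coe_Ico, Set.mem_Ico] at hj hj'
    have h' : (j : ZMod m) = (j' : ZMod m) := h
    rw [ZMod.natCast_eq_natCast_iff] at h'
    obtain ⟨k, hk⟩ := Nat.exists_eq_add_of_le hj.1
    obtain ⟨k', hk'⟩ := Nat.exists_eq_add_of_le hj'.1
    have h2 : k ≡ k' [MOD m] := by
      apply Nat.ModEq.add_left_cancel' s
      rw [← hk, ← hk']
      exact h'
    have h3 : k = k' := Nat.ModEq.eq_of_lt_of_lt h2 (by omega) (by omega)
    omega
  · intro i _
    refine ⟨s + (i - (s : ZMod m)).val, ?_, ?_⟩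
    · rw [Finset.coe_Ico, Set.mem_Ico]
      have := ZMod.val_lt (i - (s : ZMod m))
      omega
    · push_cast
      rw [ZMod.natCast_zmod_val]
      ring
  · intro j _
    rfl

/-- The number of closed chains. -/
theorem cyc (hm : 3 ≤ m) (a : ℕ) (ε : ℝ) (hε : 0 < ε) : ∃ C : ℝ, 0 ≤ C ∧
    ∀ (A : ZMod m → Matrix (Fin 3) (Fin 3) ℤ) (X : ZMod m → ℝ) (Z : ℝ),
      (∀ i, (A i).det ≠ 0 ∧ Ent (A i) a) → (∀ i, 1 ≤ X i) → (∀ i, X i ≤ Z) →
        Bd (Cyc A X) (C * (∏ i, X i) * Z ^ ε) := by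
  obtain ⟨C1, hC1, h1⟩ := path a (m - 2) (by omega) (ε / 2) (by positivity)
  obtain ⟨Cp, hCp, hpair⟩ := pair_bd a (ε / 2) (by positivity)
  refine ⟨Cp * 2 * C1, by positivity, ?_⟩
  intro A X Z hA hX hZ
  have pos : ∀ i, 0 < X i := fun i => lt_of_lt_of_le one_pos (hX i)
  have hZ1 : 1 ≤ Z := (hX 0).trans (hZ 0)
  have hZ0 : 0 < Z := by linarith
  obtain ⟨p, hp⟩ := exists_big X hX
  set s := (p + 2).val with hs
  have hsc : (s : ZMod m) = p + 2 := by rw [hs, ZMod.natCast_zmod_val]
  have hmc : (m : ZMod m) = 0 := ZMod.natCast_self m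
  have hlast : ((s + (m - 2) - 1 : ℕ) : ZMod m) = p - 1 := by
    have e : s + (m - 2) - 1 + 3 = s + m := by omega
    have e2 := congrArg (fun n : ℕ => (n : ZMod m)) e
    push_cast at e2
    rw [hsc, hmc] at e2
    linear_combination e2
  set A' : ℕ → Matrix (Fin 3) (Fin 3) ℤ := fun j => A (j : ZMod m) with hA'
  set X' : ℕ → ℝ := fun j => X (j : ZMod m) with hX'
  have hb := h1 A' X' s Z (fun i => hA _) (fun i => hX _) (fun i _ _ => hZ _)
  set F : (ZMod m → V) → (ℕ → V) := fun x j =>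
    if s ≤ j ∧ j < s + (m - 2) then x (j : ZMod m) else 0 with hF
  have hFin : ∀ (x : ZMod m → V) (j : ℕ), s ≤ j → j < s + (m - 2) → F x j = x (j : ZMod m) :=
    fun x j h1 h2 => if_pos ⟨h1, h2⟩
  set q : ℝ := X p * X (p + 1) / (X (p - 1) * X (p + 2)) with hq
  have hq1 : 1 ≤ q := by
    rw [hq, le_div_iff₀ (mul_pos (pos _) (pos _))]
    linarith
  have hfib : Bd (Cyc A X) ((Cp * (1 + q) * Z ^ (ε / 2)) *
      (C1 * W X' s (s + (m - 2)) * Z ^ (ε / 2))) := by
    apply hb.fib F
    · intro x hx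
      obtain ⟨hr, hi, hn⟩ := hx
      refine ⟨fun i hi => if_neg hi, fun i hi hi' => ?_, fun i hi1 hi' => ?_, fun i hi1 hi' => ?_⟩
      · rw [hFin x i hi hi']
        exact hr _
      · rw [hFin x i hi1 (by omega), hFin x (i + 1) (by omega) hi']
        have := hi (i : ZMod m)
        push_cast
        exact this
      · rw [hFin x i hi1 (by omega), hFin x (i + 2) (by omega) hi']
        have := hn (i : ZMod m)
        simp only [hA']
        push_cast
        exact this
    · positivity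
    intro y hy
    have hry := hy.2.1 (s + (m - 2) - 1) (by omega) (by omega)
    have hry' := hy.2.1 s le_rfl (by omega)
    simp only [hX', hlast, hsc] at hry hry'
    rcases Set.eq_empty_or_nonempty {x ∈ Cyc A X | F x = y} with hem | ⟨x1, hx1, hxy1⟩
    · rw [hem]
      exact Bd.empty (by positivity)
    have hval : ∀ x, F x = y → x (p - 1) = y (s + (m - 2) - 1) ∧ x (p + 2) = y s := by
      intro x hx
      rw [← hx]
      constructor
      · rw [hFin x _ (by omega) (by omega), hlast]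
      · rw [hFin x _ le_rfl (by omega), hsc]
    have e1 : p - 1 + 1 = p := by ring
    have e2 : p - 1 + 2 = p + 1 := by ring
    have e3 : p + 1 + 1 = p + 2 := by ring
    have hM0 := hA (p - 1)
    have hM1 := hA p
    have hM2 := hA (p + 1)
    have hδ : ((A p).adjugate *ᵥ ((A (p - 1))ᵀ *ᵥ y (s + (m - 2) - 1))) ⬝ᵥ
        (A (p + 1) *ᵥ y s) ≠ 0 := by
      obtain ⟨v1, v2⟩ := hval x1 hxy1
      obtain ⟨-, hi, hn⟩ := hx1
      rw [← v1, ← v2]
      apply delta_ne hM1.1 (y := x1 p) (z := x1 (p + 1))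
      · rw [tr_dot]
        have := hi (p - 1)
        rwa [e1] at this
      · rw [dotProduct_comm]
        have := hi (p + 1)
        rwa [e3] at this
      · exact hi p
      · have := hn (p - 1)
        rwa [e1, e2] at this
      · exact hn p
    have hpb := hpair (A (p - 1)) (A p) (A (p + 1)) hM0.2 hM0.1 hM1.2 hM1.1
      hM2.2 hM2.1 (y (s + (m - 2) - 1)) (y s) hry.1 hry'.1 (X (p - 1)) (X (p + 2))
      (X p) (X (p + 1)) Z (hX _) hry.2.1 hry.2.2 (hX _) hry'.2.1 hry'.2.2
      (hZ _) (hZ _) (pos _).le (pos _).le hδ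
    apply hpb.inj (fun x => (x p, x (p + 1)))
    · rintro x ⟨⟨hr, hi, hn⟩, hxy⟩
      obtain ⟨v1, v2⟩ := hval x hxy
      refine ⟨(hr p).1, (hr (p + 1)).1, ?_, ?_, hi p, (hr p).2.2, (hr (p + 1)).2.2⟩
      · rw [tr_dot, ← v1]
        have := hi (p - 1)
        rwa [e1] at this
      · rw [dotProduct_comm, ← v2]
        have := hi (p + 1)
        rwa [e3] at this
    · rintro x ⟨hx, hxy⟩ x' ⟨hx', hxy'⟩ h
      rw [Prod.mk.injEq] at h
      funext k
      set n := (k - (p + 2)).val with hn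
      have hnc : (n : ZMod m) = k - (p + 2) := by rw [hn, ZMod.natCast_zmod_val]
      have hnm : n < m := ZMod.val_lt _
      by_cases h1 : n < m - 2
      · have h2 : ((s + n : ℕ) : ZMod m) = k := by
          push_cast
          rw [hsc, hnc]
          ring
        have h3 := congrFun (hxy.trans hxy'.symm) (s + n)
        rw [hFin x _ (by omega) (by omega), hFin x' _ (by omega) (by omega), h2] at h3
        exact h3
      · by_cases h2 : n = m - 2
        · have h3 : n + 2 = m := by omega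
          have h4 := congrArg (fun n : ℕ => (n : ZMod m)) h3
          push_cast at h4
          rw [hnc, hmc] at h4
          have h5 : k = p := by linear_combination h4
          rw [h5]
          exact h.1
        · have h3 : n + 1 = m := by omega
          have h4 := congrArg (fun n : ℕ => (n : ZMod m)) h3
          push_cast at h4
          rw [hnc, hmc] at h4
          have h5 : k = p + 1 := by linear_combination h4
          rw [h5]
          exact h.2
  refine hfib.mono subset_rfl ?_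
  -- the product
  have hprod : q * W X' s (s + (m - 2)) = ∏ i, X i := by
    have e1 : s + m = s + (m - 2) + 1 + 1 := by omega
    rw [← prod_Ico X s, e1, Finset.prod_Ico_succ_top (by omega), Finset.prod_Ico_succ_top (by omega)]
    have e2 : ((s + (m - 2) : ℕ) : ZMod m) = p := by
      have e : s + (m - 2) + 2 = s + m := by omega
      have e2 := congrArg (fun n : ℕ => (n : ZMod m)) e
      push_cast at e2
      rw [hsc, hmc] at e2
      push_cast
      linear_combination e2 + hsc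
    have e3 : ((s + (m - 2) + 1 : ℕ) : ZMod m) = p + 1 := by
      rw [Nat.cast_add, e2, Nat.cast_one]
    rw [e2, e3]
    unfold W
    simp only [hX', hlast, hsc]
    have p1 := pos (p - 1)
    have p2 := pos (p + 2)
    rw [hq]
    field_simp
  have hz : Z ^ ε = Z ^ (ε / 2) * Z ^ (ε / 2) := by
    rw [← Real.rpow_add hZ0]
    congr 1
    ring
  have hW := W_pos (X := X') (fun i => hX _) s (s + (m - 2))
  calc Cp * (1 + q) * Z ^ (ε / 2) * (C1 * W X' s (s + (m - 2)) * Z ^ (ε / 2))
      ≤ Cp * (q + q) * Z ^ (ε / 2) * (C1 * W X' s (s + (m - 2)) * Z ^ (ε / 2)) := by gcongr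
    _ = Cp * 2 * C1 * (q * W X' s (s + (m - 2))) * Z ^ ε := by
        rw [hz]
        ring
    _ = Cp * 2 * C1 * (∏ i, X i) * Z ^ ε := by rw [hprod]

end Pool.Agent.K1H88.PG
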