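import Pool.Agent.K1H88.PG.Non

/-! Closed chains over a field: existence of nondegenerate ones on smooth varieties. -/

namespace Pool.Agent.K1H88.PG

open Matrix

variable {K : Type*} [Field K] {m : ℕ} [NeZero m]

/-- The point satisfies the equations. -/
def IncK (A : ZMod m → Matrix (Fin 3) (Fin 3) K) (x : ZMod m → Fin 3 → K) : Prop :=
  ∀ i, x i ⬝ᵥ (A i *ᵥ x (i + 1)) = 0

/-- The point is not on one of the divisors `E_i`. -/
def InUK (A : ZMod m → Matrix (Fin 3) (Fin 3) K) (x : ZMod m → Fin 3 → K) : Prop :=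
  ∀ i, ((A i)ᵀ *ᵥ x i) ⨯₃ (A (i + 1) *ᵥ x (i + 2)) ≠ 0

/-- The gradients of the equations are linearly independent at all points of the variety. -/
def SmoothK (A : ZMod m → Matrix (Fin 3) (Fin 3) K) : Prop :=
  ∀ x : ZMod m → Fin 3 → K, (∀ i, x i ≠ 0) → IncK A x → ∀ α : ZMod m → K,
    (∀ i, α (i - 1) • ((A (i - 1))ᵀ *ᵥ x (i - 1)) + α i • (A i *ᵥ x (i + 1)) = 0) → α = 0

theorem cov_dot (L B C : Matrix (Fin 3) (Fin 3) K) (v w : Fin 3 → K) :
    cov L B C w ⬝ᵥ v = (B.adjugate *ᵥ (Lᵀ *ᵥ v)) ⬝ᵥ (C *ᵥ w) := by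
  unfold cov
  rw [dotProduct_comm, ← tr_dot', dotProduct_comm (Lᵀ *ᵥ v), tr_dot', dotProduct_comm]

/-- From sequences to closed chains. -/
theorem assemble (A : ZMod m → Matrix (Fin 3) (Fin 3) K) (y : ℕ → Fin 3 → K)
    (h0 : ∀ j, j < m → y j ≠ 0)
    (h1 : ∀ j, j < m → y j ⬝ᵥ (A (j : ZMod m) *ᵥ y ((j + 1) % m)) = 0)
    (h2 : ∀ j, j < m → ((A (j : ZMod m))ᵀ *ᵥ y j) ⨯₃
      (A ((j + 1 : ℕ) : ZMod m) *ᵥ y ((j + 2) % m)) ≠ 0) :
    ∃ x : ZMod m → Fin 3 → K, (∀ i, x i ≠ 0) ∧ IncK A x ∧ InUK A x := by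
  refine ⟨fun i => y i.val, fun i => h0 _ (ZMod.val_lt i), fun i => ?_, fun i => ?_⟩
  · have e1 : (i + 1).val = (i.val + 1) % m := by
      rw [ZMod.val_add]
      have : (1 : ZMod m) = ((1 : ℕ) : ZMod m) := by norm_num
      rw [this, ZMod.val_natCast, Nat.add_mod_mod]
    have h := h1 i.val (ZMod.val_lt i)
    rw [ZMod.natCast_zmod_val] at h
    simp only
    rw [e1]
    exact h
  · have e2 : (i + 2).val = (i.val + 2) % m := by
      rw [ZMod.val_add]
      have : (2 : ZMod m) = ((2 : ℕ) : ZMod m) := by norm_num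
      rw [this, ZMod.val_natCast, Nat.add_mod_mod]
    have h := h2 i.val (ZMod.val_lt i)
    push_cast at h
    rw [ZMod.natCast_zmod_val] at h
    simp only
    rw [e2]
    exact h

/-- At least four vertices. -/
theorem nonempty4 {n : ℕ} (hm : m = n + 4) (A : ZMod m → Matrix (Fin 3) (Fin 3) K)
    (hA : ∀ i, (A i).det ≠ 0) (y : ℕ → Fin 3 → K)
    (hy : Pth (fun j => A ((j : ℕ) : ZMod m)) (n + 2) y)
    (hc : cov (A ((n + 1 : ℕ) : ZMod m)) (A ((n + 2 : ℕ) : ZMod m)) (A ((n + 3 : ℕ) : ZMod m))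
      (y 0) ⬝ᵥ y (n + 1) ≠ 0) :
    ∃ x : ZMod m → Fin 3 → K, (∀ i, x i ≠ 0) ∧ IncK A x ∧ InUK A x := by
  obtain ⟨p0, p1, p2⟩ := hy
  rw [cov_dot] at hc
  have hu : (A ((n + 1 : ℕ) : ZMod m))ᵀ *ᵥ y (n + 1) ≠ 0 :=
    mul_ne' (det_tr (hA _)) (p0 (n + 1) (by omega))
  have hl : (A ((n : ℕ) : ZMod m))ᵀ *ᵥ y n ≠ 0 := mul_ne' (det_tr (hA _)) (p0 n (by omega))
  obtain ⟨Y, Z, q1, q2, q3, q4, q5, q6, q7, q8, q9⟩ := close (hA _)
    (hA ((n + 3 : ℕ) : ZMod m)) hc (mul_ne' (hA 0) (p0 1 (by omega)))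
    (cm ((A ((n : ℕ) : ZMod m))ᵀ *ᵥ y n) (A ((n + 1 : ℕ) : ZMod m)))
    (by
      obtain ⟨z, hz, hz'⟩ := exists_np hu (adj_ne (hA ((n + 1 : ℕ) : ZMod m)) hl)
      exact ⟨z, hz, cross_mul_ne (hA _) hz'⟩)
  rw [cm_apply] at q8
  set f : ℕ → Fin 3 → K := fun j => if j < n + 2 then y j else if j = n + 2 then Y else Z with hf
  have f0 : ∀ j, j < n + 2 → f j = y j := fun j hj => if_pos hj
  have f1 : f (n + 2) = Y := by
    rw [hf]
    simp
  have f2 : f (n + 3) = Z := by
    rw [hf]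
    simp
  have hmc : ((n + 3 + 1 : ℕ) : ZMod m) = 0 := by
    rw [show n + 3 + 1 = m by omega]
    exact ZMod.natCast_self m
  apply assemble A f
  · intro j hj
    by_cases h1 : j < n + 2
    · rw [f0 j h1]
      exact p0 j h1
    · by_cases h2 : j = n + 2
      · rw [h2, f1]
        exact q1
      · rw [show j = n + 3 by omega, f2]
        exact q2
  · intro j hj
    by_cases h1 : j + 1 < n + 2
    · rw [f0 j (by omega), Nat.mod_eq_of_lt (show j + 1 < m by omega), f0 (j + 1) h1]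
      exact p1 j h1
    · by_cases h2 : j = n + 1
      · rw [h2, Nat.mod_eq_of_lt (show n + 1 + 1 < m by omega), f0 (n + 1) (by omega)]
        change y (n + 1) ⬝ᵥ (A ((n + 1 : ℕ) : ZMod m) *ᵥ f (n + 2)) = 0
        rw [f1, ← tr_dot']
        exact q3
      · by_cases h3 : j = n + 2
        · rw [h3, Nat.mod_eq_of_lt (show n + 2 + 1 < m by omega), f1]
          change Y ⬝ᵥ (A ((n + 2 : ℕ) : ZMod m) *ᵥ f (n + 3)) = 0
          rw [f2]
          exact q5
        · rw [show j = n + 3 by omega, show (n + 3 + 1) % m = 0 by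
            rw [show n + 3 + 1 = m by omega, Nat.mod_self], f2, f0 0 (by omega)]
          exact q4
  · intro j hj
    by_cases h1 : j + 2 < n + 2
    · rw [f0 j (by omega), Nat.mod_eq_of_lt (show j + 2 < m by omega), f0 (j + 2) h1]
      exact p2 j h1
    · by_cases h2 : j = n
      · rw [h2, Nat.mod_eq_of_lt (show n + 2 < m by omega), f0 n (by omega), f1]
        exact q8
      · by_cases h3 : j = n + 1
        · rw [h3, Nat.mod_eq_of_lt (show n + 1 + 2 < m by omega), f0 (n + 1) (by omega)]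
          change ((A ((n + 1 : ℕ) : ZMod m))ᵀ *ᵥ y (n + 1)) ⨯₃
            (A ((n + 2 : ℕ) : ZMod m) *ᵥ f (n + 3)) ≠ 0
          rw [f2]
          exact q6
        · by_cases h4 : j = n + 2
          · rw [h4, show (n + 2 + 2) % m = 0 by
              rw [show n + 2 + 2 = m by omega, Nat.mod_self], f1, f0 0 (by omega)]
            exact q7
          · rw [show j = n + 3 by omega, show (n + 3 + 2) % m = 1 by
              rw [show n + 3 + 2 = 1 + m by omega, Nat.add_mod_right,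
                Nat.mod_eq_of_lt (show 1 < m by omega)], f2, f0 1 (by omega), hmc]
            exact q9

/-- At least five vertices. -/
theorem nonempty5 (hm : 5 ≤ m) (A : ZMod m → Matrix (Fin 3) (Fin 3) K)
    (hA : ∀ i, (A i).det ≠ 0) :
    ∃ x : ZMod m → Fin 3 → K, (∀ i, x i ≠ 0) ∧ IncK A x ∧ InUK A x := by
  obtain ⟨n, hn⟩ : ∃ n, m = n + 5 := ⟨m - 5, by omega⟩
  obtain ⟨y, hy, hy'⟩ := exists_long (A := fun j => A ((j : ℕ) : ZMod m)) (fun i => hA _)
    (A ((n + 2 : ℕ) : ZMod m)) (A ((n + 3 : ℕ) : ZMod m)) (A ((n + 4 : ℕ) : ZMod m))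
    (hA _) (hA _) (hA _) n
  exact nonempty4 (n := n + 1) (by omega) A hA y hy hy'

/-- Four vertices. -/
theorem nonempty_four (hm : m = 4) (A : ZMod m → Matrix (Fin 3) (Fin 3) K)
    (hA : ∀ i, (A i).det ≠ 0) (hs : SmoothK A) :
    ∃ x : ZMod m → Fin 3 → K, (∀ i, x i ≠ 0) ∧ IncK A x ∧ InUK A x := by
  subst hm
  by_cases hex : ∃ v, v ≠ 0 ∧ cov (A 1) (A 2) (A 3) v ⨯₃ ((A 0)ᵀ *ᵥ v) ≠ 0
  · obtain ⟨v, hv, hv'⟩ := hex
    obtain ⟨z, hz, hz'⟩ := exists_fun hv'
    have hz0 : z ≠ 0 := by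
      rintro rfl
      apply hz'
      rw [dotProduct_zero]
    apply nonempty4 (n := 0) rfl A hA (fun j => if j = 0 then v else z)
    · refine ⟨fun i hi => ?_, fun i hi => ?_, fun i hi => by omega⟩
      · by_cases h : i = 0
        · simpa [h] using hv
        · simpa [h] using hz0
      · obtain rfl : i = 0 := by omega
        rw [← tr_dot']
        simpa using hz
    · simpa using hz'
  · exfalso
    push Not at hex
    -- the matrix is scalar
    set G : Matrix (Fin 3) (Fin 3) K := A 1 * (A 2).adjugateᵀ * A 3 with hG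
    have hGv : ∀ v, G *ᵥ v = cov (A 1) (A 2) (A 3) v := fun v => by
      unfold cov
      rw [hG, ← mulVec_mulVec, ← mulVec_mulVec]
    set N : Matrix (Fin 3) (Fin 3) K := ((A 0)ᵀ).adjugate * G with hN
    have hNv : ∀ v, (N *ᵥ v) ⨯₃ v = 0 := by
      intro v
      by_cases hv : v = 0
      · rw [hv]; simp
      have h1 := hex v hv
      have hw : (A 0)ᵀ *ᵥ v ≠ 0 := mul_ne' (det_tr (hA 0)) hv
      obtain ⟨k, hk⟩ := par' hw (by rw [← cross_anticomm, h1, neg_zero])
      rw [hN, ← mulVec_mulVec, hGv, hk, mulVec_smul, adj_mul', smul_smul, LinearMap.map_smul₂,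
        cross_self, smul_zero]
    have hoff : ∀ v : Fin 3 → K, (N *ᵥ v) 1 * v 2 = (N *ᵥ v) 2 * v 1 ∧
        (N *ᵥ v) 2 * v 0 = (N *ᵥ v) 0 * v 2 ∧ (N *ᵥ v) 0 * v 1 = (N *ᵥ v) 1 * v 0 := by
      intro v
      have h := hNv v
      have g0 := congrFun h 0
      have g1 := congrFun h 1
      have g2 := congrFun h 2
      rw [c0] at g0
      rw [c1] at g1
      rw [c2] at g2
      exact ⟨sub_eq_zero.1 g0, sub_eq_zero.1 g1, sub_eq_zero.1 g2⟩
    have hN2 : N = (N 0 0) • (1 : Matrix (Fin 3) (Fin 3) K) := by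
      have a0 := hoff ![1, 0, 0]
      have a1 := hoff ![0, 1, 0]
      have a2 := hoff ![0, 0, 1]
      have a3 := hoff ![1, 1, 0]
      have a4 := hoff ![1, 0, 1]
      simp only [mulVec, dot3, cons_val_zero, cons_val_one, cons_val, mul_one, mul_zero, add_zero,
        zero_add] at a0 a1 a2 a3 a4
      have b1 : N 0 1 = 0 := by tauto
      have b2 : N 0 2 = 0 := by tauto
      have b3 : N 1 0 = 0 := by
        have := a0.2.2
        tauto
      have b4 : N 2 0 = 0 := by tauto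
      have b5 : N 1 2 = 0 := by tauto
      have b6 : N 2 1 = 0 := by
        have := a1.1
        tauto
      have b7 : N 0 0 = N 1 1 := by
        have := a3.2.2
        rw [b1, b3, add_zero, zero_add] at this
        exact this
      have b8 : N 0 0 = N 2 2 := by
        have := a4.2.1
        rw [b2, b4, add_zero, zero_add] at this
        exact this.symm
      ext i j
      fin_cases i <;> fin_cases j <;> simp [b1, b2, b3, b4, b5, b6, ← b7, ← b8]
    set d0 := (A 0).det with hd0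
    set d1 := (A 1).det with hd1
    set d2 := (A 2).det with hd2
    set d3 := (A 3).det with hd3
    set μ := N 0 0 with hμ
    -- `d0 G = μ (A 0)ᵀ`
    have hGs : d0 • G = μ • (A 0)ᵀ := by
      have h1 : (A 0)ᵀ * N = d0 • G := by
        rw [hN, ← Matrix.mul_assoc, mul_adjugate, det_transpose, smul_mul, Matrix.one_mul]
      rw [← h1, hN2, Matrix.mul_smul, Matrix.mul_one]
    have hμ0 : μ ≠ 0 := by
      intro h0
      rw [h0, zero_smul] at hGs
      have h1 : G = 0 := (smul_eq_zero.1 hGs).resolve_left (hA 0)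
      have hv : (Pi.single 0 1 : Fin 3 → K) ≠ 0 := by
        intro h
        have := congrFun h 0
        simp at this
      apply cov_ne (hA 1) (hA 2) (hA 3) hv
      rw [← hGv, h1, zero_mulVec]
    -- a singular point
    have hv : (Pi.single 0 1 : Fin 3 → K) ≠ 0 := by
      intro h
      have := congrFun h 0
      simp at this
    set v : Fin 3 → K := Pi.single 0 1 with hvd
    have hv0 : (A 0)ᵀ *ᵥ v ≠ 0 := mul_ne' (det_tr (hA 0)) hv
    obtain ⟨w, hw, hw'⟩ := exists_np hv0 hv0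
    have hw0 : w ≠ 0 := by
      rintro rfl
      apply hw'
      simp
    -- the two relations
    have r1 : ∀ z, μ • (A 0 *ᵥ z) = d0 • ((A 3)ᵀ *ᵥ ((A 2).adjugate *ᵥ ((A 1)ᵀ *ᵥ z))) := by
      intro z
      have h1 : Gᵀ = (A 3)ᵀ * (A 2).adjugate * (A 1)ᵀ := by
        rw [hG, transpose_mul, transpose_mul, transpose_transpose, ← Matrix.mul_assoc]
      have h2 := congrArg Matrix.transpose hGs
      rw [transpose_smul, transpose_smul, transpose_transpose, h1] at h2
      rw [← smul_mulVec, ← h2, smul_mulVec, ← mulVec_mulVec, ← mulVec_mulVec]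
    have r2 : ∀ z, μ • ((A 0)ᵀ *ᵥ z) = d0 • (A 1 *ᵥ ((A 2).adjugateᵀ *ᵥ (A 3 *ᵥ z))) := by
      intro z
      rw [← smul_mulVec, ← hGs, smul_mulVec, hG, ← mulVec_mulVec, ← mulVec_mulVec]
    set x2 := (A 1).adjugate *ᵥ ((A 0)ᵀ *ᵥ v) with hx2
    set x3 := (A 3).adjugateᵀ *ᵥ (A 0 *ᵥ w) with hx3
    have s1 : A 1 *ᵥ x2 = d1 • ((A 0)ᵀ *ᵥ v) := by rw [hx2, mul_adj']
    have s2 : (A 3)ᵀ *ᵥ x3 = d3 • (A 0 *ᵥ w) := by
      rw [hx3, adjugate_transpose, mul_adj', det_transpose]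
    have s3 : μ • (A 2 *ᵥ x3) = (d0 * d2 * d3) • ((A 1)ᵀ *ᵥ w) := by
      rw [hx3, ← mulVec_smul, ← mulVec_smul, r1, mulVec_smul, mulVec_smul, adjugate_transpose,
        adj_mul', det_transpose, mulVec_smul, mul_adj', smul_smul, smul_smul]
      congr 1
      ring
    have s4 : μ • ((A 2)ᵀ *ᵥ x2) = (d0 * d1 * d2) • (A 3 *ᵥ v) := by
      rw [hx2, ← mulVec_smul, ← mulVec_smul, r2, mulVec_smul, mulVec_smul, adj_mul', mulVec_smul,
        adjugate_transpose, mul_adj', det_transpose, smul_smul, smul_smul]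
    have hx20 : x2 ≠ 0 := adj_ne (hA 1) hv0
    have hx30 : x3 ≠ 0 := by
      rw [hx3, adjugate_transpose]
      exact adj_ne (det_tr (hA 3)) (mul_ne' (hA 0) hw0)
    have hinc0 : v ⬝ᵥ (A 0 *ᵥ w) = 0 := by rw [← tr_dot']; exact hw
    have hsing := hs (fun i => ![v, w, x2, x3] i) (by
        intro i
        fin_cases i
        · exact hv
        · exact hw0
        · exact hx20
        · exact hx30) (by
        intro i
        fin_cases i
        · exact hinc0
        · change w ⬝ᵥ (A 1 *ᵥ x2) = 0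
          rw [s1, dotProduct_smul, dotProduct_comm, hw, smul_zero]
        · change x2 ⬝ᵥ (A 2 *ᵥ x3) = 0
          have h1 : μ • (x2 ⬝ᵥ (A 2 *ᵥ x3)) = 0 := by
            rw [← dotProduct_smul, s3, dotProduct_smul, dotProduct_comm, tr_dot', s1,
              dotProduct_smul, dotProduct_comm, hw, smul_zero, smul_zero]
          exact (smul_eq_zero.1 h1).resolve_left hμ0
        · change x3 ⬝ᵥ (A 3 *ᵥ v) = 0
          rw [← tr_dot', s2, smul_dotProduct, dotProduct_comm, hinc0, smul_zero])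
      (fun i => ![-(d3 * (d1 * d2 * d0)), d2 * d3 * d0, -μ, d1 * d2 * d0] i) (by
        intro i
        fin_cases i
        · change (d1 * d2 * d0) • ((A 3)ᵀ *ᵥ x3) + (-(d3 * (d1 * d2 * d0))) • (A 0 *ᵥ w) = 0
          rw [s2, smul_smul, ← add_smul]
          convert zero_smul K _ using 2
          ring
        · change (-(d3 * (d1 * d2 * d0))) • ((A 0)ᵀ *ᵥ v) + (d2 * d3 * d0) • (A 1 *ᵥ x2) = 0
          rw [s1, smul_smul, ← add_smul]
          convert zero_smul K _ using 2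
          ring
        · change (d2 * d3 * d0) • ((A 1)ᵀ *ᵥ w) + (-μ) • (A 2 *ᵥ x3) = 0
          rw [neg_smul, s3, ← neg_smul, ← add_smul]
          convert zero_smul K _ using 2
          ring
        · change (-μ) • ((A 2)ᵀ *ᵥ x2) + (d1 * d2 * d0) • (A 3 *ᵥ v) = 0
          rw [neg_smul, s4, ← neg_smul, ← add_smul]
          convert zero_smul K _ using 2
          ring)
    have := congrFun hsing 2
    have h3 : -μ = 0 := this
    exact hμ0 (neg_eq_zero.1 h3)

end Pool.Agent.K1H88.PG
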