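import Pool.Agent.K1H88.PG.Non2

/-! Closed chains with three vertices: existence of nondegenerate ones on smooth varieties. -/

namespace Pool.Agent.K1H88.PG

open Matrix

variable {K : Type*} [Field K]

/-- Rotation of the closed chain. -/
theorem SmoothK.rot {m : ℕ} [NeZero m] {A : ZMod m → Matrix (Fin 3) (Fin 3) K} (hs : SmoothK A)
    (k : ZMod m) : SmoothK (fun j => A (j + k)) := by
  intro x h0 h1 α h2
  have e1 : ∀ i : ZMod m, i - k + 1 = i + 1 - k := fun i => by ring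
  have e2 : ∀ i : ZMod m, i - 1 - k = i - k - 1 := fun i => by ring
  have h := hs (fun i => x (i - k)) (fun i => h0 _) (fun i => by
      have := h1 (i - k)
      simp only [sub_add_cancel, e1] at this
      exact this) (fun i => α (i - k)) (fun i => by
      have := h2 (i - k)
      simp only [sub_add_cancel, e1] at this
      simp only [e2]
      have e3 : i - k - 1 + k = i - 1 := by ring
      rw [e3] at this
      exact this)
  funext i
  have := congrFun h (i + k)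
  simp only [add_sub_cancel_right] at this
  exact this

/-- The symmetric matrix at a vertex is nonsingular. -/
theorem key3 [CharZero K] {A : ZMod 3 → Matrix (Fin 3) (Fin 3) K} (hA : ∀ i, (A i).det ≠ 0)
    (hs : SmoothK A) (v : Fin 3 → K) (hv : v ≠ 0) :
    (A 0 * (A 1).adjugateᵀ * A 2) *ᵥ v + (A 0 * (A 1).adjugateᵀ * A 2)ᵀ *ᵥ v ≠ 0 := by
  intro h0
  set L := A 0 with hL
  set B := A 1 with hB
  set C := A 2 with hC
  set y := B.adjugateᵀ *ᵥ (C *ᵥ v) with hy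
  set z := B.adjugate *ᵥ (Lᵀ *ᵥ v) with hz
  have t1 : (L * B.adjugateᵀ * C) *ᵥ v = L *ᵥ y := by
    rw [hy, ← mulVec_mulVec, ← mulVec_mulVec]
  have t2 : (L * B.adjugateᵀ * C)ᵀ *ᵥ v = Cᵀ *ᵥ z := by
    rw [hz, transpose_mul, transpose_mul, transpose_transpose, ← mulVec_mulVec, ← mulVec_mulVec]
  rw [t1, t2] at h0
  have hLy : L *ᵥ y = -(Cᵀ *ᵥ z) := eq_neg_of_add_eq_zero_left h0
  have e1 : Bᵀ *ᵥ y = B.det • (C *ᵥ v) := by
    rw [hy, adjugate_transpose, mul_adj', det_transpose]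
  have e2 : B *ᵥ z = B.det • (Lᵀ *ᵥ v) := by rw [hz, mul_adj']
  -- the quadratic form vanishes
  have q0 : z ⬝ᵥ (C *ᵥ v) = v ⬝ᵥ (L *ᵥ y) := by
    rw [← tr_dot' L, hy, hz, ← tr_dot' (B.adjugateᵀ), transpose_transpose]
  have q1 : v ⬝ᵥ (L *ᵥ y) = - (z ⬝ᵥ (C *ᵥ v)) := by
    rw [hLy, dotProduct_neg, dotProduct_comm, tr_dot']
  have q2 : v ⬝ᵥ (L *ᵥ y) = 0 := by
    rw [q0] at q1
    exact self_eq_neg.1 q1
  have q3 : z ⬝ᵥ (C *ᵥ v) = 0 := by rw [q0, q2]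
  have hB0 : B.det ≠ 0 := hA 1
  have hy0 : y ≠ 0 := by
    rw [hy, adjugate_transpose]
    exact adj_ne (det_tr hB0) (mul_ne' (hA 2) hv)
  have hz0 : z ≠ 0 := adj_ne hB0 (mul_ne' (det_tr (hA 0)) hv)
  have hsing := hs (fun i => ![v, y, z] i) (by
      intro i
      fin_cases i
      · exact hv
      · exact hy0
      · exact hz0) (by
      intro i
      fin_cases i
      · exact q2
      · change y ⬝ᵥ (B *ᵥ z) = 0
        rw [e2, dotProduct_smul, dotProduct_comm, tr_dot', q2, smul_zero]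
      · exact q3)
    (fun i => ![-B.det, 1, -B.det] i) (by
      intro i
      fin_cases i
      · change (-B.det) • (Cᵀ *ᵥ z) + (-B.det) • (L *ᵥ y) = 0
        rw [hLy, ← smul_add, add_neg_cancel, smul_zero]
      · change (-B.det) • (Lᵀ *ᵥ v) + (1 : K) • (B *ᵥ z) = 0
        rw [e2, one_smul, neg_smul, neg_add_cancel]
      · change (1 : K) • (Bᵀ *ᵥ y) + (-B.det) • (C *ᵥ v) = 0
        rw [e1, one_smul, neg_smul, add_neg_cancel])
  have h1 := congrFun hsing 1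
  have h3 : (1 : K) = 0 := h1
  exact one_ne_zero h3

/-- Three vertices. -/
theorem nonempty_three [CharZero K] (m : ℕ) [NeZero m] (hm : m = 3)
    (A : ZMod m → Matrix (Fin 3) (Fin 3) K)
    (hA : ∀ i, (A i).det ≠ 0) (hs : SmoothK A) :
    ∃ x : ZMod m → Fin 3 → K, (∀ i, x i ≠ 0) ∧ IncK A x ∧ InUK A x := by
  subst hm
  have k0 := key3 hA hs
  have k1 : ∀ v : Fin 3 → K, v ≠ 0 →
      (A 1 * (A 2).adjugateᵀ * A 0) *ᵥ v + (A 1 * (A 2).adjugateᵀ * A 0)ᵀ *ᵥ v ≠ 0 :=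
    key3 (A := fun j => A (j + 1)) (fun i => hA _) (hs.rot 1)
  have hs1 : (Pi.single 0 1 : Fin 3 → K) ≠ 0 := by
    intro h
    have := congrFun h 0
    simp at this
  obtain ⟨p, hp, -, hq⟩ := exists_quad k0 hs1
  have hu : (A 0)ᵀ *ᵥ p ≠ 0 := mul_ne' (det_tr (hA 0)) hp
  obtain ⟨Y, hY, hY1, hY2⟩ := exists_quad k1 hu
  have h1 : ((A 1).adjugate *ᵥ ((A 0)ᵀ *ᵥ p)) ⬝ᵥ (A 2 *ᵥ p) ≠ 0 := by
    rw [← cov_dot]
    unfold cov
    rw [mulVec_mulVec, mulVec_mulVec]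
    exact hq
  have h2 : ((A 2).adjugate *ᵥ ((A 1)ᵀ *ᵥ Y)) ⬝ᵥ (A 0 *ᵥ Y) ≠ 0 := by
    rw [← cov_dot]
    unfold cov
    rw [mulVec_mulVec, mulVec_mulVec]
    exact hY2
  obtain ⟨g1, g2⟩ := last_ne (hA 1) h1 hY hY1
  set Z := ((A 1)ᵀ *ᵥ Y) ⨯₃ (A 2 *ᵥ p) with hZ
  have hZ1 : ((A 1)ᵀ *ᵥ Y) ⬝ᵥ Z = 0 := dot_self_cross _ _
  obtain ⟨g3, g4⟩ := last_ne (hA 2) h2 g1 hZ1
  refine ⟨fun i => ![p, Y, Z] i, ?_, ?_, ?_⟩
  · intro i
    fin_cases i
    · exact hp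
    · exact hY
    · exact g1
  · intro i
    fin_cases i
    · change p ⬝ᵥ (A 0 *ᵥ Y) = 0
      rw [← tr_dot']
      exact hY1
    · change Y ⬝ᵥ (A 1 *ᵥ Z) = 0
      rw [← tr_dot']
      exact hZ1
    · change Z ⬝ᵥ (A 2 *ᵥ p) = 0
      rw [dotProduct_comm]
      exact dot_cross_self _ _
  · intro i
    fin_cases i
    · exact g2
    · exact g1
    · exact g3

/-- All closed chains. -/
theorem nonempty_all [CharZero K] {m : ℕ} [NeZero m] (hm : 3 ≤ m)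
    (A : ZMod m → Matrix (Fin 3) (Fin 3) K)
    (hA : ∀ i, (A i).det ≠ 0) (hs : SmoothK A) :
    ∃ x : ZMod m → Fin 3 → K, (∀ i, x i ≠ 0) ∧ IncK A x ∧ InUK A x := by
  rcases Nat.lt_or_ge m 5 with h | h
  · rcases (show m = 3 ∨ m = 4 by omega) with h | h
    · exact nonempty_three m h A hA hs
    · exact nonempty_four h A hA hs
  · exact nonempty5 h A hA

end Pool.Agent.K1H88.PG
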