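import Pool.Agent.K1H88.PG.Non3

/-! Smoothness implies that all the matrices are nonsingular. -/

namespace Pool.Agent.K1H88.PG

open Matrix

variable {K : Type*} [Field K] {m : ℕ} [NeZero m]

theorem inc_of_seq (A : ZMod m → Matrix (Fin 3) (Fin 3) K) (y : ℕ → Fin 3 → K)
    (h1 : ∀ j, j < m → y j ⬝ᵥ (A (j : ZMod m) *ᵥ y ((j + 1) % m)) = 0) :
    IncK A (fun i => y i.val) := by
  intro i
  have e1 : (i + 1).val = (i.val + 1) % m := by
    rw [ZMod.val_add]
    have : (1 : ZMod m) = ((1 : ℕ) : ZMod m) := by norm_num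
    rw [this, ZMod.val_natCast, Nat.add_mod_mod]
  have h := h1 i.val (ZMod.val_lt i)
  rw [ZMod.natCast_zmod_val] at h
  simp only
  rw [e1]
  exact h

/-- A nonzero vector orthogonal to two vectors. -/
theorem exists_orth (a b : Fin 3 → K) : ∃ z, z ≠ 0 ∧ a ⬝ᵥ z = 0 ∧ b ⬝ᵥ z = 0 := by
  have hd : (Matrix.of ![a, b, 0]).det = 0 := by
    rw [det_fin_three]
    simp
  obtain ⟨z, hz, hz'⟩ := exists_mulVec_eq_zero_iff.2 hd
  refine ⟨z, hz, ?_, ?_⟩
  · have := congrFun hz' 0
    simpa [mulVec] using this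
  · have := congrFun hz' 1
    simpa [mulVec] using this

omit [NeZero m] in
theorem exists_chain (A : ZMod m → Matrix (Fin 3) (Fin 3) K) {w : Fin 3 → K} (hw : w ≠ 0) (n : ℕ) :
    ∃ y : ℕ → Fin 3 → K, y 0 = w ∧ (∀ j, y j ≠ 0) ∧
      ∀ j, j < n → y j ⬝ᵥ (A (j : ZMod m) *ᵥ y (j + 1)) = 0 := by
  induction n with
  | zero => exact ⟨fun _ => w, rfl, fun _ => hw, fun j hj => by omega⟩
  | succ n ih =>
    obtain ⟨y, hy0, hy1, hy2⟩ := ih
    obtain ⟨z, hz, hz', -⟩ := exists_orth ((A (n : ZMod m))ᵀ *ᵥ y n) 0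
    refine ⟨Function.update y (n + 1) z, ?_, ?_, ?_⟩
    · rw [Function.update_of_ne (by omega), hy0]
    · intro j
      by_cases h : j = n + 1
      · rw [h, Function.update_self]
        exact hz
      · rw [Function.update_of_ne h]
        exact hy1 j
    · intro j hj
      rw [Function.update_of_ne (show j ≠ n + 1 by omega)]
      by_cases h : j = n
      · rw [h, Function.update_self, ← tr_dot']
        exact hz'
      · rw [Function.update_of_ne (show j + 1 ≠ n + 1 by omega)]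
        exact hy2 j (by omega)

theorem det_ne_last (hm : 3 ≤ m) {A : ZMod m → Matrix (Fin 3) (Fin 3) K} (hs : SmoothK A) :
    (A (-1)).det ≠ 0 := by
  intro hd
  obtain ⟨w, hw, hw'⟩ := exists_mulVec_eq_zero_iff.2 hd
  obtain ⟨v, hv, hv'⟩ := exists_mulVec_eq_zero_iff.2 (show ((A (-1))ᵀ).det = 0 by
    rw [det_transpose, hd])
  obtain ⟨n, rfl⟩ : ∃ n, m = n + 3 := ⟨m - 3, by omega⟩
  obtain ⟨y, hy0, hy1, hy2⟩ := exists_chain A hw n
  obtain ⟨z, hz, hz1, hz2⟩ := exists_orth ((A ((n : ℕ) : ZMod (n + 3)))ᵀ *ᵥ y n)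
    (A ((n + 1 : ℕ) : ZMod (n + 3)) *ᵥ v)
  set f : ℕ → Fin 3 → K := fun j => if j < n + 1 then y j else if j = n + 1 then z else v with hf
  have f0 : ∀ j, j < n + 1 → f j = y j := fun j hj => if_pos hj
  have f1 : f (n + 1) = z := by
    rw [hf]
    simp
  have f2 : f (n + 2) = v := by
    rw [hf]
    simp
  have hlast : ((n + 2 : ℕ) : ZMod (n + 3)) = -1 := by
    have h : ((n + 2 + 1 : ℕ) : ZMod (n + 3)) = 0 := ZMod.natCast_self (n + 3)
    rw [Nat.cast_succ] at h
    exact eq_neg_of_add_eq_zero_left h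
  have hval : (-1 : ZMod (n + 3)).val = n + 2 := ZMod.val_neg_one (n + 2)
  have hinc : IncK A (fun i => f i.val) := by
    apply inc_of_seq
    intro j hj
    by_cases h1 : j < n
    · rw [f0 j (by omega), Nat.mod_eq_of_lt (by omega), f0 (j + 1) (by omega)]
      exact hy2 j h1
    · by_cases h2 : j = n
      · rw [h2, f0 n (by omega), Nat.mod_eq_of_lt (by omega), f1, ← tr_dot']
        exact hz1
      · by_cases h3 : j = n + 1
        · rw [h3, f1, Nat.mod_eq_of_lt (by omega)]
          change z ⬝ᵥ (A ((n + 1 : ℕ) : ZMod (n + 3)) *ᵥ f (n + 2)) = 0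
          rw [f2, dotProduct_comm]
          exact hz2
        · obtain rfl : j = n + 2 := by omega
          rw [f2, show (n + 2 + 1) % (n + 3) = 0 from Nat.mod_self _, f0 0 (by omega), hy0, hlast,
            hw', dotProduct_zero]
  have h := hs (fun i => f i.val) (fun i => by
    simp only [hf]
    split_ifs
    · exact hy1 _
    · exact hz
    · exact hv) hinc (Pi.single (-1) 1) (fun i => by
    have t1 : (Pi.single (-1) (1 : K) : ZMod (n + 3) → K) (i - 1) •
        ((A (i - 1))ᵀ *ᵥ f (i - 1).val) = 0 := by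
      by_cases hi : i - 1 = -1
      · rw [hi, hval, f2, hv', smul_zero]
      · rw [Pi.single_eq_of_ne hi, zero_smul]
    have t2 : (Pi.single (-1) (1 : K) : ZMod (n + 3) → K) i • (A i *ᵥ f (i + 1).val) = 0 := by
      by_cases hi : i = -1
      · rw [hi, neg_add_cancel, ZMod.val_zero, f0 0 (by omega), hy0, hw', smul_zero]
      · rw [Pi.single_eq_of_ne hi, zero_smul]
    rw [t1, t2, add_zero])
  have h1 := congrFun h (-1)
  rw [Pi.single_eq_same] at h1
  exact one_ne_zero h1

/-- On a smooth variety all the matrices are nonsingular. -/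
theorem det_ne (hm : 3 ≤ m) {A : ZMod m → Matrix (Fin 3) (Fin 3) K} (hs : SmoothK A)
    (i : ZMod m) : (A i).det ≠ 0 := by
  have h : (A (-1 + (i + 1))).det ≠ 0 := det_ne_last hm (hs.rot (i + 1))
  have e : (-1 : ZMod m) + (i + 1) = i := by ring
  rw [e] at h
  exact h

end Pool.Agent.K1H88.PG
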