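import Pool.Agent.K1H88.PG.Cnt

/-! One vertex next to a given vertex, and two adjacent vertices between two given vertices. -/

namespace Pool.Agent.K1H88.PG

open Matrix
open Pool.Agent.H548.WM (ht Rep le_ht' ht_le mem_bx)

/-- The entries of the matrix are bounded by `a`. -/
def Ent (M : Matrix (Fin 3) (Fin 3) ℤ) (a : ℕ) : Prop := ∀ i j, |M i j| ≤ (a : ℤ)

theorem Ent.tr {M : Matrix (Fin 3) (Fin 3) ℤ} {a : ℕ} (h : Ent M a) : Ent Mᵀ a :=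
  fun i j => h j i

theorem Ent.mul {M : Matrix (Fin 3) (Fin 3) ℤ} {a : ℕ} (h : Ent M a) (v : V) :
    (ht (M *ᵥ v) : ℤ) ≤ 3 * a * ht v := by
  rw [ht_le_iff (by positivity)]
  intro i
  rw [mulVec, dot3]
  have h' : ∀ j, |M i j * v j| ≤ (a : ℤ) * ht v := fun j => by
    rw [abs_mul]
    exact mul_le_mul (h i j) (le_ht' v j) (abs_nonneg _) (Nat.cast_nonneg _)
  have h0 := abs_le.1 (h' 0)
  have h1 := abs_le.1 (h' 1)
  have h2 := abs_le.1 (h' 2)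
  rw [abs_le]
  constructor <;> linarith [h0.1, h0.2, h1.1, h1.2, h2.1, h2.2]

theorem adj_tr_mul (M : Matrix (Fin 3) (Fin 3) ℤ) (v : V) :
    M.adjugate *ᵥ (M *ᵥ v) = M.det • v := by
  rw [mulVec_mulVec, adjugate_mul, smul_mulVec, one_mulVec]

theorem mul_adj (M : Matrix (Fin 3) (Fin 3) ℤ) (v : V) :
    M *ᵥ (M.adjugate *ᵥ v) = M.det • v := by
  rw [mulVec_mulVec, mul_adjugate, smul_mulVec, one_mulVec]

/-- The image of a nonzero vector is nonzero. -/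
theorem mul_ne {M : Matrix (Fin 3) (Fin 3) ℤ} (hM : M.det ≠ 0) {v : V} (hv : v ≠ 0) :
    M *ᵥ v ≠ 0 := by
  intro h
  have h1 := adj_tr_mul M v
  rw [h, mulVec_zero] at h1
  rcases smul_eq_zero.1 h1.symm with h2 | h2
  · exact hM h2
  · exact hv h2

/-- Bezout vectors for images of primitive vectors. -/
theorem bez_mul (M : Matrix (Fin 3) (Fin 3) ℤ) {v : V} (hv : Rep v) :
    ∃ c : V, c ⬝ᵥ (M *ᵥ v) = M.det := by
  obtain ⟨c, hc⟩ := bez hv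
  refine ⟨M.adjugateᵀ *ᵥ c, ?_⟩
  rw [mulVec_transpose, ← dotProduct_mulVec, adj_tr_mul, dotProduct_smul, hc, smul_eq_mul, mul_one]

/-- The bilinear form of a matrix, moved to the other side. -/
theorem tr_dot (M : Matrix (Fin 3) (Fin 3) ℤ) (y z : V) : (Mᵀ *ᵥ y) ⬝ᵥ z = y ⬝ᵥ (M *ᵥ z) := by
  rw [mulVec_transpose, ← dotProduct_mulVec]

theorem Bd.pairs (S : Set V) (Y : ℝ) (hS : ∀ y ∈ S, Rep y ∧ (ht y : ℝ) ≤ Y) (e : V) (he : e ≠ 0)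
    (D : ℤ) (hD : D ≠ 0) (K : ℝ) (hK : 0 ≤ K)
    (h : ∀ y ∈ S, ∀ y' ∈ S, ∃ k : ℤ, D • (y ⨯₃ y') = k • e ∧ |(k : ℝ)| ≤ K) :
    Bd S (1 + 9 * K) := by
  classical
  have hfin : S.Finite := by
    apply (Finset.finite_toSet (Pool.Agent.H548.WM.bx 3 ⌊Y⌋₊)).subset
    intro y hy
    rw [Finset.mem_coe, mem_bx]
    exact Nat.le_floor (hS y hy).2
  refine ⟨hfin, ?_⟩
  rw [Set.ncard_eq_toFinset_card _ hfin]
  apply card_le hfin.toFinset (fun y hy => (hS y (by simpa using hy)).1) e he D hD K hK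
  intro y hy y' hy'
  exact h y (by simpa using hy) y' (by simpa using hy')

/-- One vertex next to a given vertex. -/
theorem one (u c : V) (D : ℤ) (hc : c ⬝ᵥ u = D) (hD : D ≠ 0) (Y : ℝ) (hY : 0 ≤ Y) :
    Bd {y : V | Rep y ∧ u ⬝ᵥ y = 0 ∧ (ht y : ℝ) ≤ Y} (1 + 9 * (2 * |(D : ℝ)| * Y ^ 2 / ht u)) := by
  have hu : u ≠ 0 := by
    rintro rfl
    apply hD
    rw [← hc, dotProduct_zero]
  have hup : (0 : ℝ) < ht u := by
    have := ht_pos hu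
    exact_mod_cast this
  apply Bd.pairs _ Y (fun y hy => ⟨hy.1, hy.2.2⟩) u hu D hD _ (by positivity)
  rintro y ⟨-, hy, hyY⟩ y' ⟨-, hy', hyY'⟩
  have hpar : u ⨯₃ (y ⨯₃ y') = 0 := by
    rw [cross_cross', hy, hy', zero_smul, zero_smul, sub_self]
  have h1 := cross_cross' c u (y ⨯₃ y')
  rw [hpar, LinearMap.map_zero, hc] at h1
  have h2 : D • (y ⨯₃ y') = (c ⬝ᵥ (y ⨯₃ y')) • u := (sub_eq_zero.1 h1.symm).symm
  refine ⟨_, h2, ?_⟩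
  rw [le_div_iff₀ hup]
  have h3 := congrArg (fun v => (ht v : ℤ)) h2
  simp only [ht_smul] at h3
  have h4 := cross_le y y'
  have h5 : |c ⬝ᵥ (y ⨯₃ y')| * (ht u : ℤ) ≤ |D| * (2 * ht y * ht y') := by
    rw [← h3]
    gcongr
  have h6 : |((c ⬝ᵥ (y ⨯₃ y') : ℤ) : ℝ)| * (ht u : ℝ) ≤ |(D : ℝ)| * (2 * ht y * ht y') := by
    exact_mod_cast h5
  calc |((c ⬝ᵥ (y ⨯₃ y') : ℤ) : ℝ)| * (ht u : ℝ) ≤ |(D : ℝ)| * (2 * ht y * ht y') := h6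
    _ ≤ |(D : ℝ)| * (2 * Y * Y) := by gcongr
    _ = 2 * |(D : ℝ)| * Y ^ 2 := by ring

/-- Two adjacent vertices between two given vertices, for a given content. -/
theorem two_fix (B : Matrix (Fin 3) (Fin 3) ℤ) (hB : B.det ≠ 0) (a : ℕ) (ha : Ent B a)
    (u w cu cw : V) (Du Dw : ℤ) (hcu : cu ⬝ᵥ u = Du) (hDu : Du ≠ 0) (hcw : cw ⬝ᵥ w = Dw)
    (hDw : Dw ≠ 0) (g : ℤ) (hg : g ≠ 0) (Y Z : ℝ) (hY : 0 ≤ Y) (hZ : 0 ≤ Z) :
    Bd {y : V | (Rep y ∧ u ⬝ᵥ y = 0 ∧ (ht y : ℝ) ≤ Y) ∧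
        ∃ z : V, (ht z : ℝ) ≤ Z ∧ (Bᵀ *ᵥ y) ⨯₃ w = g • z}
      (1 + 9 * (81 * a ^ 2 * |(Du : ℝ)| * |(Dw : ℝ)| * Y * Z / (ht u * ht w))) := by
  have hu : u ≠ 0 := by
    rintro rfl
    apply hDu
    rw [← hcu, dotProduct_zero]
  have hw : w ≠ 0 := by
    rintro rfl
    apply hDw
    rw [← hcw, dotProduct_zero]
  have hup : (0 : ℝ) < ht u := by
    have := ht_pos hu
    exact_mod_cast this
  have hwp : (0 : ℝ) < ht w := by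
    have := ht_pos hw
    exact_mod_cast this
  have hD : Du * Dw * B.det ≠ 0 := mul_ne_zero (mul_ne_zero hDu hDw) hB
  apply Bd.pairs _ Y (fun y hy => ⟨hy.1.1, hy.1.2.2⟩) (g • u)
    (fun h => (smul_eq_zero.1 h).elim hg hu) (Du * Dw * B.det) hD _ (by positivity)
  rintro y1 ⟨⟨-, hy1, hyY1⟩, z1, hz1, h1⟩ y2 ⟨⟨-, hy2, hyY2⟩, z2, hz2, h2⟩
  set b1 := Bᵀ *ᵥ y1 with hb1
  set b2 := Bᵀ *ᵥ y2 with hb2
  have h1' : w ⨯₃ b1 = -(g • z1) := by rw [← cross_anticomm, h1]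
  -- the relation modulo `g`
  set v1 : V := -(b2 ⬝ᵥ z1) • cw - (cw ⬝ᵥ b1) • z2 + (cw ⬝ᵥ b2) • z1 with hv1
  have r1 : Dw • (b1 ⨯₃ b2) = g • v1 := by
    have := four cw w b1 b2
    rw [hcw, h1', h2] at this
    rw [this, hv1, dotProduct_neg, dotProduct_smul]
    simp only [smul_add, smul_sub, smul_neg, neg_smul, smul_smul, smul_eq_mul]
    rw [mul_comm (cw ⬝ᵥ b1) g, mul_comm (cw ⬝ᵥ b2) g, sub_neg_eq_add]
  set v := y1 ⨯₃ y2 with hv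
  have r2 : B *ᵥ (b1 ⨯₃ b2) = B.det • v := cof B y1 y2
  set v2 : V := B *ᵥ v1 with hv2
  have r3 : (Dw * B.det) • v = g • v2 := by
    rw [mul_smul, ← r2, ← mulVec_smul, r1, mulVec_smul, hv2]
  have hpar : u ⨯₃ v = 0 := by
    rw [hv, cross_cross', hy1, hy2, zero_smul, zero_smul, sub_self]
  have r4 : Du • v = (cu ⬝ᵥ v) • u := by
    have h3 := cross_cross' cu u v
    rw [hpar, LinearMap.map_zero, hcu] at h3
    exact (sub_eq_zero.1 h3.symm).symm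
  have r5 : (Du * Dw * B.det) • v = (cu ⬝ᵥ v2) • (g • u) := by
    calc (Du * Dw * B.det) • v = (Dw * B.det) • (Du • v) := by rw [smul_smul]; congr 1; ring
      _ = (Dw * B.det) • ((cu ⬝ᵥ v) • u) := by rw [r4]
      _ = (cu ⬝ᵥ ((Dw * B.det) • v)) • u := by rw [dotProduct_smul, smul_smul, smul_eq_mul]
      _ = (cu ⬝ᵥ v2) • (g • u) := by
          rw [r3, dotProduct_smul, smul_smul, smul_eq_mul, mul_comm]
  refine ⟨_, r5, ?_⟩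
  -- the sizes
  have hgp : (0 : ℝ) < |(g : ℝ)| := abs_pos.2 (by exact_mod_cast hg)
  have s1 : (ht b1 : ℤ) ≤ 3 * a * ht y1 := ha.tr.mul y1
  have s2 : (ht b2 : ℤ) ≤ 3 * a * ht y2 := ha.tr.mul y2
  have s3 : (ht (w ⨯₃ b1) : ℤ) = |g| * ht z1 := by
    rw [h1', ← neg_smul, ht_smul, abs_neg]
  have s4 : (ht (b2 ⨯₃ w) : ℤ) = |g| * ht z2 := by rw [h2, ht_smul]
  have s5 : (ht w : ℤ) ^ 2 ≤ w ⬝ᵥ w := by
    obtain ⟨i, hi⟩ := Pool.Agent.H548.WM.exists_ht (by norm_num) w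
    rw [← hi, sq_abs, dot3]
    fin_cases i
    · change w 0 ^ 2 ≤ _
      nlinarith [sq_nonneg (w 1), sq_nonneg (w 2)]
    · change w 1 ^ 2 ≤ _
      nlinarith [sq_nonneg (w 0), sq_nonneg (w 2)]
    · change w 2 ^ 2 ≤ _
      nlinarith [sq_nonneg (w 1), sq_nonneg (w 0)]
  have s6 : (w ⬝ᵥ w) * (ht (b1 ⨯₃ b2) : ℤ) ≤ |b2 ⬝ᵥ (w ⨯₃ b1)| * ht w +
      |w ⬝ᵥ b1| * ht (b2 ⨯₃ w) + |w ⬝ᵥ b2| * ht (w ⨯₃ b1) := by
    have e0 : (0 : ℤ) ≤ w ⬝ᵥ w := le_trans (sq_nonneg _) s5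
    have e1 : (w ⬝ᵥ w) * (ht (b1 ⨯₃ b2) : ℤ) = ht ((w ⬝ᵥ w) • (b1 ⨯₃ b2)) := by
      rw [ht_smul, abs_of_nonneg e0]
    rw [e1, four w w b1 b2, sub_eq_add_neg, sub_eq_add_neg, ← neg_smul, ← neg_smul]
    refine (ht_add _ _).trans ?_
    refine (add_le_add (ht_add _ _) le_rfl).trans ?_
    rw [ht_smul, ht_smul, ht_smul, abs_neg, abs_neg]
  have t1 : |b2 ⬝ᵥ (w ⨯₃ b1)| ≤ 3 * ht b2 * (|g| * ht z1) := by
    rw [← s3]
    exact dot_le _ _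
  have t2 := dot_le w b1
  have t3 := dot_le w b2
  have G : (0 : ℤ) ≤ |g| := abs_nonneg _
  -- real versions
  have s1' : (ht b1 : ℝ) ≤ 3 * a * Y := by
    have : (ht b1 : ℝ) ≤ 3 * a * ht y1 := by exact_mod_cast s1
    exact this.trans (by gcongr)
  have s2' : (ht b2 : ℝ) ≤ 3 * a * Y := by
    have : (ht b2 : ℝ) ≤ 3 * a * ht y2 := by exact_mod_cast s2
    exact this.trans (by gcongr)
  have s7 : (ht w : ℤ) ^ 2 * (ht (b1 ⨯₃ b2) : ℤ) ≤ (3 * ht b2 * (|g| * ht z1)) * ht w +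
      (3 * ht w * ht b1) * (|g| * ht z2) + (3 * ht w * ht b2) * (|g| * ht z1) := by
    calc (ht w : ℤ) ^ 2 * (ht (b1 ⨯₃ b2) : ℤ) ≤ (w ⬝ᵥ w) * (ht (b1 ⨯₃ b2) : ℤ) := by gcongr
      _ ≤ _ := s6
      _ ≤ _ := by
          rw [s4, s3]
          gcongr
  have s8 : (ht w : ℝ) ^ 2 * (ht (b1 ⨯₃ b2) : ℝ) ≤ (3 * ht b2 * (|(g : ℝ)| * ht z1)) * ht w +
      (3 * ht w * ht b1) * (|(g : ℝ)| * ht z2) + (3 * ht w * ht b2) * (|(g : ℝ)| * ht z1) := by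
    exact_mod_cast s7
  have s9 : (ht w : ℝ) * ((ht w : ℝ) * (ht (b1 ⨯₃ b2) : ℝ)) ≤
      ht w * (27 * a * Y * Z * |(g : ℝ)|) := by
    calc (ht w : ℝ) * ((ht w : ℝ) * (ht (b1 ⨯₃ b2) : ℝ))
        = (ht w : ℝ) ^ 2 * (ht (b1 ⨯₃ b2) : ℝ) := by ring
      _ ≤ _ := s8
      _ ≤ (3 * (3 * a * Y) * (|(g : ℝ)| * Z)) * ht w +
          (3 * ht w * (3 * a * Y)) * (|(g : ℝ)| * Z) + (3 * ht w * (3 * a * Y)) *
          (|(g : ℝ)| * Z) := by gcongr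
      _ = ht w * (27 * a * Y * Z * |(g : ℝ)|) := by ring
  have s10 : (ht w : ℝ) * (ht (b1 ⨯₃ b2) : ℝ) ≤ 27 * a * Y * Z * |(g : ℝ)| :=
    le_of_mul_le_mul_left s9 hwp
  have s11 : |(B.det : ℝ)| * (ht v : ℝ) ≤ 3 * a * ht (b1 ⨯₃ b2) := by
    have : |B.det| * (ht v : ℤ) ≤ 3 * a * ht (b1 ⨯₃ b2) := by
      rw [← ht_smul, ← r2]
      exact ha.mul _
    exact_mod_cast this
  have s12 : |((cu ⬝ᵥ v2 : ℤ) : ℝ)| * (|(g : ℝ)| * ht u) =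
      |(Du : ℝ)| * |(Dw : ℝ)| * |(B.det : ℝ)| * ht v := by
    have := congrArg (fun v => (ht v : ℤ)) r5
    simp only [ht_smul, abs_mul] at this
    exact_mod_cast this.symm
  rw [le_div_iff₀ (by positivity)]
  have s13 : |(g : ℝ)| * (|((cu ⬝ᵥ v2 : ℤ) : ℝ)| * (ht u * ht w)) ≤
      |(g : ℝ)| * (81 * a ^ 2 * |(Du : ℝ)| * |(Dw : ℝ)| * Y * Z) := by
    calc |(g : ℝ)| * (|((cu ⬝ᵥ v2 : ℤ) : ℝ)| * (ht u * ht w))
        = |((cu ⬝ᵥ v2 : ℤ) : ℝ)| * (|(g : ℝ)| * ht u) * ht w := by ring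
      _ = |(Du : ℝ)| * |(Dw : ℝ)| * (|(B.det : ℝ)| * ht v) * ht w := by rw [s12]; ring
      _ ≤ |(Du : ℝ)| * |(Dw : ℝ)| * (3 * a * ht (b1 ⨯₃ b2)) * ht w := by gcongr
      _ = |(Du : ℝ)| * |(Dw : ℝ)| * (3 * a) * (ht w * ht (b1 ⨯₃ b2)) := by ring
      _ ≤ |(Du : ℝ)| * |(Dw : ℝ)| * (3 * a) * (27 * a * Y * Z * |(g : ℝ)|) := by gcongr
      _ = _ := by ring
  exact le_of_mul_le_mul_left s13 hgp

/-- Two adjacent vertices between two given vertices. -/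
theorem two (B : Matrix (Fin 3) (Fin 3) ℤ) (hB : B.det ≠ 0) (a : ℕ) (ha : Ent B a)
    (u w cu cw : V) (Du Dw : ℤ) (hcu : cu ⬝ᵥ u = Du) (hDu : Du ≠ 0) (hcw : cw ⬝ᵥ w = Dw)
    (hDw : Dw ≠ 0) (hδ : (B.adjugate *ᵥ u) ⬝ᵥ w ≠ 0) (Y Z : ℝ) (hY : 0 ≤ Y) (hZ : 0 ≤ Z) :
    Bd {p : V × V | Rep p.1 ∧ Rep p.2 ∧ u ⬝ᵥ p.1 = 0 ∧ w ⬝ᵥ p.2 = 0 ∧ p.1 ⬝ᵥ (B *ᵥ p.2) = 0 ∧
        (ht p.1 : ℝ) ≤ Y ∧ (ht p.2 : ℝ) ≤ Z}
      ((1 + 9 * (81 * a ^ 2 * |(Du : ℝ)| * |(Dw : ℝ)| * Y * Z / (ht u * ht w))) *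
        (2 * ((B.det * ((B.adjugate *ᵥ u) ⬝ᵥ w)).natAbs.divisors.card : ℝ))) := by
  classical
  set δ := (B.adjugate *ᵥ u) ⬝ᵥ w with hδd
  set N := B.det * δ with hN
  have hN0 : N ≠ 0 := mul_ne_zero hB hδ
  set S := {p : V × V | Rep p.1 ∧ Rep p.2 ∧ u ⬝ᵥ p.1 = 0 ∧ w ⬝ᵥ p.2 = 0 ∧
    p.1 ⬝ᵥ (B *ᵥ p.2) = 0 ∧ (ht p.1 : ℝ) ≤ Y ∧ (ht p.2 : ℝ) ≤ Z} with hS
  -- the content
  have key : ∀ p ∈ S, ∃ g : ℤ, (Bᵀ *ᵥ p.1) ⨯₃ w = g • p.2 ∧ g ∣ N := by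
    rintro ⟨y, z⟩ ⟨h1, h2, h3, h4, h5, -, -⟩
    simp only at h1 h2 h3 h4 h5 ⊢
    have h6 : z ⨯₃ ((Bᵀ *ᵥ y) ⨯₃ w) = 0 := by
      rw [cross_cross', dotProduct_comm z w, h4, zero_smul, dotProduct_comm z, tr_dot, h5,
        zero_smul, sub_self]
    obtain ⟨g, hg⟩ := par h2 h6
    refine ⟨g, hg, ?_⟩
    obtain ⟨c, hc⟩ := bez_mul Bᵀ h1
    rw [det_transpose] at hc
    have h7 := cross_cross' c (Bᵀ *ᵥ y) w
    rw [hg, LinearMap.map_smul] at h7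
    have h8 : (B.adjugate *ᵥ u) ⬝ᵥ (Bᵀ *ᵥ y) = 0 := by
      rw [dotProduct_comm, tr_dot, mul_adj, dotProduct_smul, dotProduct_comm, h3, smul_zero]
    have h9 := congrArg (fun v => (B.adjugate *ᵥ u) ⬝ᵥ v) h7
    simp only [dotProduct_smul, dotProduct_sub, h8, smul_eq_mul, mul_zero, zero_sub, hc] at h9
    rw [← hδd, ← hN] at h9
    exact (dvd_neg (a := g) (b := N)).1 ⟨_, h9.symm⟩
  choose! f hf using key
  have hG : Bd {g : ℤ | g ∣ N} (2 * (N.natAbs.divisors.card : ℝ)) := by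
    have h1 : {g : ℤ | g ∣ N} ⊆ ↑((N.natAbs.divisors ×ˢ ({1, -1} : Finset ℤ)).image
        fun q => q.2 * (q.1 : ℤ)) := by
      intro g hg
      simp only [Finset.coe_image, Set.mem_image, Finset.mem_coe, Finset.mem_product,
        Nat.mem_divisors, Finset.mem_insert, Finset.mem_singleton, Prod.exists]
      refine ⟨g.natAbs, g.sign, ⟨⟨Int.natAbs_dvd_natAbs.2 hg, Int.natAbs_ne_zero.2 hN0⟩, ?_⟩,
        Int.sign_mul_natAbs g⟩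
      have hg0 : g ≠ 0 := by
        rintro rfl
        exact hN0 (zero_dvd_iff.1 hg)
      rcases lt_or_gt_of_ne hg0 with h | h
      · right; exact Int.sign_eq_neg_one_of_neg h
      · left; exact Int.sign_eq_one_of_pos h
    have h2 := Finset.finite_toSet ((N.natAbs.divisors ×ˢ ({1, -1} : Finset ℤ)).image
        fun q => q.2 * (q.1 : ℤ))
    refine ⟨h2.subset h1, ?_⟩
    have h3 := Set.ncard_le_ncard h1 h2
    rw [Set.ncard_coe_finset] at h3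
    have h4 : ((N.natAbs.divisors ×ˢ ({1, -1} : Finset ℤ)).image
        fun q => q.2 * (q.1 : ℤ)).card ≤ N.natAbs.divisors.card * 2 := by
      refine Finset.card_image_le.trans ?_
      rw [Finset.card_product]
      exact Nat.mul_le_mul_left _ (Finset.card_le_two)
    have h5 : ({g : ℤ | g ∣ N}.ncard : ℝ) ≤ ((N.natAbs.divisors.card * 2 : ℕ) : ℝ) := by
      exact_mod_cast h3.trans h4
    refine h5.trans (le_of_eq ?_)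
    push_cast
    ring
  have hup : (0 : ℝ) ≤ ht u := Nat.cast_nonneg _
  have hwp : (0 : ℝ) ≤ ht w := Nat.cast_nonneg _
  apply hG.fib f (fun p hp => (hf p hp).2) (by positivity)
  intro g hg
  have hg0 : g ≠ 0 := by
    rintro rfl
    exact hN0 (zero_dvd_iff.1 hg)
  apply (two_fix B hB a ha u w cu cw Du Dw hcu hDu hcw hDw g hg0 Y Z hY hZ).inj Prod.fst
  · rintro ⟨y, z⟩ ⟨hp, hfg⟩
    have h1 := (hf _ hp).1
    rw [hfg] at h1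
    exact ⟨⟨hp.1, hp.2.2.1, hp.2.2.2.2.2.1⟩, z, hp.2.2.2.2.2.2, h1⟩
  · rintro ⟨y, z⟩ ⟨hp, hfg⟩ ⟨y', z'⟩ ⟨hp', hfg'⟩ heq
    simp only at heq
    subst heq
    have h1 := (hf _ hp).1
    have h2 := (hf _ hp').1
    rw [hfg] at h1
    rw [hfg'] at h2
    simp only at h1 h2
    rw [h1] at h2
    have h3 : g • (z - z') = 0 := by rw [smul_sub, h2, sub_self]
    rw [Prod.mk.injEq]
    exact ⟨rfl, sub_eq_zero.1 ((smul_eq_zero.1 h3).resolve_left hg0)⟩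

/-- Nondegeneracy of the pencil between two given vertices. -/
theorem delta_ne {B : Matrix (Fin 3) (Fin 3) ℤ} (hB : B.det ≠ 0) {u w y z : V}
    (h1 : u ⬝ᵥ y = 0) (h2 : w ⬝ᵥ z = 0) (h3 : y ⬝ᵥ (B *ᵥ z) = 0)
    (h4 : u ⨯₃ (B *ᵥ z) ≠ 0) (h5 : (Bᵀ *ᵥ y) ⨯₃ w ≠ 0) : (B.adjugate *ᵥ u) ⬝ᵥ w ≠ 0 := by
  intro h
  set u' := B.adjugate *ᵥ u with hu'
  set b := Bᵀ *ᵥ y with hb
  have e1 : u' ⬝ᵥ b = 0 := by
    rw [dotProduct_comm, hb, tr_dot, hu', mul_adj, dotProduct_smul, dotProduct_comm, h1, smul_zero]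
  have e2 : b ⬝ᵥ z = 0 := by rw [hb, tr_dot, h3]
  -- `z` and `u'` are both orthogonal to `b` and `w`
  have e3 : z ⨯₃ (b ⨯₃ w) = 0 := by
    rw [cross_cross', dotProduct_comm z w, h2, zero_smul, dotProduct_comm z b, e2, zero_smul,
      sub_self]
  have e4 : u' ⨯₃ (b ⨯₃ w) = 0 := by
    rw [cross_cross', h, zero_smul, e1, zero_smul, sub_self]
  -- hence parallel
  set q := b ⨯₃ w with hq
  have e5 : (q ⬝ᵥ q) • (u' ⨯₃ z) = 0 := by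
    have := four q q u' z
    have f1 : q ⨯₃ u' = 0 := by rw [← cross_anticomm, e4, neg_zero]
    have f2 : z ⨯₃ q = 0 := e3
    rw [f1, f2] at this
    rw [this]
    simp
  have e6 : q ⬝ᵥ q ≠ 0 := by
    intro h0
    apply h5
    rw [dot3] at h0
    have g0 := mul_self_nonneg (q 0)
    have g1 := mul_self_nonneg (q 1)
    have g2 := mul_self_nonneg (q 2)
    apply ext3
    · exact mul_self_eq_zero.1 (by linarith)
    · exact mul_self_eq_zero.1 (by linarith)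
    · exact mul_self_eq_zero.1 (by linarith)
  have e7 : u' ⨯₃ z = 0 := (smul_eq_zero.1 e5).resolve_left e6
  apply h4
  -- apply `B`
  have e8 : B.det • (u ⨯₃ (B *ᵥ z)) = 0 := by
    have f3 : (B *ᵥ u') ⨯₃ (B *ᵥ z) = 0 := by
      have f4 : (B *ᵥ u') ⨯₃ (B *ᵥ z) = B.adjugateᵀ *ᵥ (u' ⨯₃ z) := by
        apply ext3 <;>
          simp only [c0, c1, c2, mulVec, dot3, adjugate_fin_three, transpose_apply, of_apply,
            cons_val', cons_val_zero, cons_val_one, cons_val, cons_val_fin_one] <;> ring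
      rw [f4, e7, mulVec_zero]
    rw [hu', mul_adj, LinearMap.map_smul₂] at f3
    exact f3
  exact (smul_eq_zero.1 e8).resolve_left hB

end Pool.Agent.K1H88.PG
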