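import Pool.Agent.K1H88.PG.Pair
import Pool.Agent.K1H88.PG.Comb
import Pool.Agent.Helper112.Arith

/-! Open chains of adjacent vertices. -/

namespace Pool.Agent.K1H88.PG

open Matrix
open Pool.Agent.H548.WM (ht Rep le_ht' ht_le mem_bx)

/-- The matrices have nonzero determinants and entries bounded by `a`. -/
def Good (A : ℕ → Matrix (Fin 3) (Fin 3) ℤ) (a : ℕ) : Prop := ∀ i, (A i).det ≠ 0 ∧ Ent (A i) a

/-- The chains with the vertices `s, …, t - 1`. -/
def Path (A : ℕ → Matrix (Fin 3) (Fin 3) ℤ) (X : ℕ → ℝ) (s t : ℕ) : Set (ℕ → V) :=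
  {x | (∀ i, ¬ (s ≤ i ∧ i < t) → x i = 0) ∧
    (∀ i, s ≤ i → i < t → Rep (x i) ∧ X i ≤ ht (x i) ∧ (ht (x i) : ℝ) ≤ 2 * X i) ∧
    (∀ i, s ≤ i → i + 1 < t → x i ⬝ᵥ (A i *ᵥ x (i + 1)) = 0) ∧
    (∀ i, s ≤ i → i + 2 < t → ((A i)ᵀ *ᵥ x i) ⨯₃ (A (i + 1) *ᵥ x (i + 2)) ≠ 0)}

/-- The restriction to a part of the indices. -/
def cut (x : ℕ → V) (s t : ℕ) : ℕ → V := fun i => if s ≤ i ∧ i < t then x i else 0

theorem cut_in {x : ℕ → V} {s t i : ℕ} (h1 : s ≤ i) (h2 : i < t) : cut x s t i = x i :=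
  if_pos ⟨h1, h2⟩

theorem cut_mem {A : ℕ → Matrix (Fin 3) (Fin 3) ℤ} {X : ℕ → ℝ} {s t s' t' : ℕ} {x : ℕ → V}
    (hx : x ∈ Path A X s t) (hs : s ≤ s') (ht : t' ≤ t) : cut x s' t' ∈ Path A X s' t' := by
  obtain ⟨h1, h2, h3, h4⟩ := hx
  refine ⟨fun i hi => if_neg hi, fun i hi hi' => ?_, fun i hi hi' => ?_, fun i hi hi' => ?_⟩
  · rw [cut_in hi hi']
    exact h2 i (hs.trans hi) (lt_of_lt_of_le hi' ht)
  · rw [cut_in hi (by omega), cut_in (by omega) hi']
    exact h3 i (hs.trans hi) (lt_of_lt_of_le hi' ht)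
  · rw [cut_in hi (by omega), cut_in (by omega) hi']
    exact h4 i (hs.trans hi) (lt_of_lt_of_le hi' ht)

theorem adj_ent {M : Matrix (Fin 3) (Fin 3) ℤ} {a : ℕ} (h : Ent M a) :
    Ent M.adjugate (2 * a ^ 2) := by
  have h' : ∀ i j k l, |M i j * M k l| ≤ (a : ℤ) ^ 2 := fun i j k l => by
    rw [abs_mul, sq]
    exact mul_le_mul (h i j) (h k l) (abs_nonneg _) (Nat.cast_nonneg _)
  have h2 : ∀ i j k l i' j' k' l',
      |M i j * M k l - M i' j' * M k' l'| ≤ ((2 * a ^ 2 : ℕ) : ℤ) := by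
    intro i j k l i' j' k' l'
    have e1 := abs_le.1 (h' i j k l)
    have e2 := abs_le.1 (h' i' j' k' l')
    push_cast
    rw [abs_le]
    constructor <;> linarith [e1.1, e1.2, e2.1, e2.2]
  have h3 : ∀ i j k l i' j' k' l',
      |-(M i j * M k l) + M i' j' * M k' l'| ≤ ((2 * a ^ 2 : ℕ) : ℤ) := by
    intro i j k l i' j' k' l'
    have e := h2 i' j' k' l' i j k l
    rwa [sub_eq_add_neg, add_comm] at e
  intro i j
  rw [adjugate_fin_three]
  fin_cases i <;> fin_cases j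
  · exact h2 ..
  · exact h3 ..
  · exact h2 ..
  · exact h3 ..
  · exact h2 ..
  · exact h3 ..
  · exact h2 ..
  · exact h3 ..
  · exact h2 ..

theorem det_ent {M : Matrix (Fin 3) (Fin 3) ℤ} {a : ℕ} (h : Ent M a) :
    |M.det| ≤ 6 * (a : ℤ) ^ 3 := by
  have h' : ∀ i j k l m n, |M i j * M k l * M m n| ≤ (a : ℤ) ^ 3 := fun i j k l m n => by
    rw [abs_mul, abs_mul]
    calc |M i j| * |M k l| * |M m n| ≤ a * a * a := by
          have := h i j
          have := h k l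
          have := h m n
          gcongr
      _ = (a : ℤ) ^ 3 := by ring
  rw [det_fin_three]
  have e1 := abs_le.1 (h' 0 0 1 1 2 2)
  have e2 := abs_le.1 (h' 0 0 1 2 2 1)
  have e3 := abs_le.1 (h' 0 1 1 0 2 2)
  have e4 := abs_le.1 (h' 0 1 1 2 2 0)
  have e5 := abs_le.1 (h' 0 2 1 0 2 1)
  have e6 := abs_le.1 (h' 0 2 1 1 2 0)
  rw [abs_le]
  constructor <;> linarith [e1.1, e1.2, e2.1, e2.2, e3.1, e3.2, e4.1, e4.2, e5.1, e5.2, e6.1, e6.2]

/-- The lower bound for the height of an image. -/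
theorem low {M : Matrix (Fin 3) (Fin 3) ℤ} {a : ℕ} (h : Ent M a) (hM : M.det ≠ 0) (v : V) :
    (ht v : ℤ) ≤ 6 * a ^ 2 * ht (M *ᵥ v) := by
  have h1 := (adj_ent h).mul (M *ᵥ v)
  rw [adj_tr_mul, ht_smul] at h1
  have h2 : 1 ≤ |M.det| := Int.one_le_abs hM
  have h3 : (ht v : ℤ) ≤ |M.det| * ht v := by nlinarith [(Nat.cast_nonneg (ht v) : (0 : ℤ) ≤ ht v)]
  push_cast at h1
  linarith

/-- The middle vertex of three. -/
theorem mid {A B : Matrix (Fin 3) (Fin 3) ℤ} {a : ℕ} (hA : Ent A a) (hB : Ent B a) {x y z : V}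
    (hy : Rep y) (h1 : x ⬝ᵥ (A *ᵥ y) = 0) (h2 : y ⬝ᵥ (B *ᵥ z) = 0)
    (h3 : (Aᵀ *ᵥ x) ⨯₃ (B *ᵥ z) ≠ 0) : (ht y : ℤ) ≤ 18 * a ^ 2 * ht x * ht z := by
  have h4 : y ⨯₃ ((Aᵀ *ᵥ x) ⨯₃ (B *ᵥ z)) = 0 := by
    rw [cross_cross', h2, zero_smul, dotProduct_comm, tr_dot, h1, zero_smul, sub_self]
  obtain ⟨n, hn⟩ := par hy h4
  have hn0 : n ≠ 0 := by
    rintro rfl
    apply h3
    rw [hn, zero_smul]
  have h5 : (ht y : ℤ) ≤ ht ((Aᵀ *ᵥ x) ⨯₃ (B *ᵥ z)) := by
    rw [hn, ht_smul]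
    have : 1 ≤ |n| := Int.one_le_abs hn0
    nlinarith [(Nat.cast_nonneg (ht y) : (0 : ℤ) ≤ ht y)]
  have h6 := cross_le (Aᵀ *ᵥ x) (B *ᵥ z)
  have h7 := hA.tr.mul x
  have h8 := hB.mul z
  calc (ht y : ℤ) ≤ 2 * ht (Aᵀ *ᵥ x) * ht (B *ᵥ z) := h5.trans h6
    _ ≤ 2 * (3 * a * ht x) * (3 * a * ht z) := by gcongr
    _ = _ := by ring

section Bounds

variable {a : ℕ}

theorem det_ent' {M : Matrix (Fin 3) (Fin 3) ℤ} (h : Ent M a) : |(M.det : ℝ)| ≤ 6 * (a : ℝ) ^ 3 := by
  exact_mod_cast det_ent h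

/-- The neighbours of a vertex. -/
theorem end_bd {M : Matrix (Fin 3) (Fin 3) ℤ} (h : Ent M a) (hM : M.det ≠ 0) {x : V} (hx : Rep x)
    {X Y : ℝ} (hX : 1 ≤ X) (hxX : X ≤ ht x) (hY : 0 ≤ Y) :
    Bd {y : V | Rep y ∧ (M *ᵥ x) ⬝ᵥ y = 0 ∧ (ht y : ℝ) ≤ 2 * Y}
      (1 + 2592 * a ^ 5 * (Y ^ 2 / X)) := by
  obtain ⟨c, hc⟩ := bez_mul M hx
  refine (one (M *ᵥ x) c M.det hc hM (2 * Y) (by positivity)).mono subset_rfl ?_
  have h1 : (ht x : ℝ) ≤ 6 * a ^ 2 * ht (M *ᵥ x) := by exact_mod_cast low h hM x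
  have h2 : (0 : ℝ) < ht (M *ᵥ x) := by
    have := ht_pos (mul_ne hM (rep_ne hx))
    exact_mod_cast this
  have h3 := det_ent' h
  have h4 : 1 / (ht (M *ᵥ x) : ℝ) ≤ 6 * a ^ 2 / X := by
    rw [div_le_div_iff₀ h2 (by linarith)]
    linarith
  calc 1 + 9 * (2 * |(M.det : ℝ)| * (2 * Y) ^ 2 / ht (M *ᵥ x))
      = 1 + 72 * |(M.det : ℝ)| * Y ^ 2 * (1 / (ht (M *ᵥ x) : ℝ)) := by ring
    _ ≤ 1 + 72 * (6 * (a : ℝ) ^ 3) * Y ^ 2 * (6 * a ^ 2 / X) := by gcongr
    _ = _ := by ring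

/-- The pairs between two vertices, with a uniform bound. -/
theorem pair_bd (a : ℕ) (ε : ℝ) (hε : 0 < ε) : ∃ C : ℝ, 0 ≤ C ∧
    ∀ (L B R : Matrix (Fin 3) (Fin 3) ℤ), Ent L a → L.det ≠ 0 → Ent B a → B.det ≠ 0 → Ent R a →
      R.det ≠ 0 → ∀ (p q : V), Rep p → Rep q → ∀ (P Q Y Y' Z : ℝ), 1 ≤ P → P ≤ ht p →
        (ht p : ℝ) ≤ 2 * P → 1 ≤ Q → Q ≤ ht q → (ht q : ℝ) ≤ 2 * Q → P ≤ Z → Q ≤ Z → 0 ≤ Y →
        0 ≤ Y' → (B.adjugate *ᵥ (Lᵀ *ᵥ p)) ⬝ᵥ (R *ᵥ q) ≠ 0 →
        Bd {v : V × V | Rep v.1 ∧ Rep v.2 ∧ (Lᵀ *ᵥ p) ⬝ᵥ v.1 = 0 ∧ (R *ᵥ q) ⬝ᵥ v.2 = 0 ∧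
          v.1 ⬝ᵥ (B *ᵥ v.2) = 0 ∧ (ht v.1 : ℝ) ≤ 2 * Y ∧ (ht v.2 : ℝ) ≤ 2 * Y'}
        (C * (1 + Y * Y' / (P * Q)) * Z ^ ε) := by
  obtain ⟨C, hC, hdiv⟩ := Pool.Agent.Helper112.divisor_bound (ε / 2) (by positivity)
  set c1 : ℝ := 1 + 9 * (81 * a ^ 2 * (6 * (a : ℝ) ^ 3) * (6 * (a : ℝ) ^ 3) * (4 * (6 * a ^ 2) *
    (6 * a ^ 2))) with hc1
  set c2 : ℝ := 6 * (a : ℝ) ^ 3 * (3 * (3 * (2 * a ^ 2) * (3 * a * 2)) * (3 * a * 2)) with hc2
  have hc1p : 1 ≤ c1 := by
    have : (0 : ℝ) ≤ 9 * (81 * a ^ 2 * (6 * (a : ℝ) ^ 3) * (6 * (a : ℝ) ^ 3) * (4 * (6 * a ^ 2) *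
      (6 * a ^ 2))) := by positivity
    linarith
  have hc2p : 0 ≤ c2 := by positivity
  refine ⟨c1 * (2 * (C * c2 ^ (ε / 2))), by positivity, ?_⟩
  intro L B R hL hLd hB hBd hR hRd p q hp hq P Q Y Y' Z hP hpP hpP' hQ hqQ hqQ' hPZ hQZ hY hY' hδ
  obtain ⟨cu, hcu⟩ := bez_mul Lᵀ hp
  obtain ⟨cw, hcw⟩ := bez_mul R hq
  rw [det_transpose] at hcu
  have h0 := two B hBd a hB _ _ cu cw _ _ hcu hLd hcw hRd hδ (2 * Y) (2 * Y') (by positivity)
    (by positivity)
  refine h0.mono subset_rfl ?_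
  have hP0 : 0 < P := by linarith
  have hQ0 : 0 < Q := by linarith
  have hZ0 : 0 < Z := by linarith
  have hu0 : (0 : ℝ) < ht (Lᵀ *ᵥ p) := by
    have := ht_pos (mul_ne (M := Lᵀ) (by rwa [det_transpose]) (rep_ne hp))
    exact_mod_cast this
  have hw0 : (0 : ℝ) < ht (R *ᵥ q) := by
    have := ht_pos (mul_ne hRd (rep_ne hq))
    exact_mod_cast this
  have hu1 : (ht p : ℝ) ≤ 6 * a ^ 2 * ht (Lᵀ *ᵥ p) := by
    exact_mod_cast low hL.tr (by rwa [det_transpose]) p
  have hw1 : (ht q : ℝ) ≤ 6 * a ^ 2 * ht (R *ᵥ q) := by exact_mod_cast low hR hRd q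
  have hu2 : 1 / (ht (Lᵀ *ᵥ p) : ℝ) ≤ 6 * a ^ 2 / P := by
    rw [div_le_div_iff₀ hu0 hP0]
    linarith
  have hw2 : 1 / (ht (R *ᵥ q) : ℝ) ≤ 6 * a ^ 2 / Q := by
    rw [div_le_div_iff₀ hw0 hQ0]
    linarith
  have hu3 : (ht (Lᵀ *ᵥ p) : ℝ) ≤ 3 * a * (2 * P) := by
    have : (ht (Lᵀ *ᵥ p) : ℝ) ≤ 3 * a * ht p := by exact_mod_cast hL.tr.mul p
    exact this.trans (by gcongr)
  have hw3 : (ht (R *ᵥ q) : ℝ) ≤ 3 * a * (2 * Q) := by
    have : (ht (R *ᵥ q) : ℝ) ≤ 3 * a * ht q := by exact_mod_cast hR.mul q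
    exact this.trans (by gcongr)
  have d1 := det_ent' hL
  have d2 := det_ent' hR
  have d3 := det_ent' hB
  -- the first factor
  have e1 : 1 + 9 * (81 * a ^ 2 * |(L.det : ℝ)| * |(R.det : ℝ)| * (2 * Y) * (2 * Y') /
      (ht (Lᵀ *ᵥ p) * ht (R *ᵥ q))) ≤ c1 * (1 + Y * Y' / (P * Q)) := by
    have f1 : 9 * (81 * a ^ 2 * |(L.det : ℝ)| * |(R.det : ℝ)| * (2 * Y) * (2 * Y') /
        (ht (Lᵀ *ᵥ p) * ht (R *ᵥ q))) ≤ (c1 - 1) * (Y * Y' / (P * Q)) := by
      calc 9 * (81 * a ^ 2 * |(L.det : ℝ)| * |(R.det : ℝ)| * (2 * Y) * (2 * Y') /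
            (ht (Lᵀ *ᵥ p) * ht (R *ᵥ q)))
          = 9 * (81 * a ^ 2 * |(L.det : ℝ)| * |(R.det : ℝ)| * (4 * (1 / (ht (Lᵀ *ᵥ p) : ℝ)) *
            (1 / (ht (R *ᵥ q) : ℝ)))) * (Y * Y') := by field_simp; ring
        _ ≤ 9 * (81 * a ^ 2 * (6 * (a : ℝ) ^ 3) * (6 * (a : ℝ) ^ 3) * (4 * (6 * a ^ 2 / P) *
            (6 * a ^ 2 / Q))) * (Y * Y') := by gcongr
        _ = (c1 - 1) * (Y * Y' / (P * Q)) := by
            rw [hc1]
            field_simp
            ring
    have f2 : 0 ≤ Y * Y' / (P * Q) := by positivity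
    nlinarith
  -- the divisor function
  have e2 : ((B.det * ((B.adjugate *ᵥ (Lᵀ *ᵥ p)) ⬝ᵥ (R *ᵥ q))).natAbs.divisors.card : ℝ) ≤
      C * c2 ^ (ε / 2) * Z ^ ε := by
    set N := B.det * ((B.adjugate *ᵥ (Lᵀ *ᵥ p)) ⬝ᵥ (R *ᵥ q)) with hN
    have hN0 : N ≠ 0 := mul_ne_zero hBd hδ
    have g1 : (N.natAbs : ℝ) ≤ c2 * Z ^ 2 := by
      have g2 : (N.natAbs : ℝ) = |(N : ℝ)| := by
        rw [Nat.cast_natAbs, Int.cast_abs]
      have g3 : |(((B.adjugate *ᵥ (Lᵀ *ᵥ p)) ⬝ᵥ (R *ᵥ q) : ℤ) : ℝ)| ≤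
          3 * ht (B.adjugate *ᵥ (Lᵀ *ᵥ p)) * ht (R *ᵥ q) := by exact_mod_cast dot_le _ _
      have g4 : (ht (B.adjugate *ᵥ (Lᵀ *ᵥ p)) : ℝ) ≤ 3 * (2 * a ^ 2) * ht (Lᵀ *ᵥ p) := by
        exact_mod_cast (adj_ent hB).mul (Lᵀ *ᵥ p)
      rw [g2, hN, Int.cast_mul, abs_mul]
      calc |(B.det : ℝ)| * |(((B.adjugate *ᵥ (Lᵀ *ᵥ p)) ⬝ᵥ (R *ᵥ q) : ℤ) : ℝ)|
          ≤ (6 * (a : ℝ) ^ 3) * (3 * (3 * (2 * a ^ 2) * (3 * a * (2 * P))) * (3 * a * (2 * Q))) := by
            refine mul_le_mul d3 ?_ (abs_nonneg _) (by positivity)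
            refine g3.trans ?_
            have g5 : (ht (B.adjugate *ᵥ (Lᵀ *ᵥ p)) : ℝ) ≤ 3 * (2 * a ^ 2) * (3 * a * (2 * P)) :=
              g4.trans (by gcongr)
            gcongr
        _ = c2 * (P * Q) := by rw [hc2]; ring
        _ ≤ c2 * (Z * Z) := by gcongr
        _ = c2 * Z ^ 2 := by ring
    have g6 := hdiv N.natAbs (Int.natAbs_pos.2 hN0)
    refine g6.trans ?_
    rw [mul_assoc]
    refine mul_le_mul_of_nonneg_left ?_ hC.le
    calc (N.natAbs : ℝ) ^ (ε / 2) ≤ (c2 * Z ^ 2) ^ (ε / 2) :=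
          Real.rpow_le_rpow (by positivity) g1 (by positivity)
      _ = c2 ^ (ε / 2) * Z ^ ε := by
          rw [Real.mul_rpow hc2p (by positivity), ← Real.rpow_natCast Z 2,
            ← Real.rpow_mul hZ0.le]
          congr 2
          push_cast
          ring
  calc _ ≤ (c1 * (1 + Y * Y' / (P * Q))) * (2 * (C * c2 ^ (ε / 2) * Z ^ ε)) := by
        refine mul_le_mul e1 (by gcongr) (by positivity) (by positivity)
    _ = _ := by ring

end Bounds

/-- The expected number of chains. -/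
noncomputable def W (X : ℕ → ℝ) (s t : ℕ) : ℝ := X s * X (t - 1) * ∏ i ∈ Finset.Ico s t, X i

theorem W_pos {X : ℕ → ℝ} (hX : ∀ i, 1 ≤ X i) (s t : ℕ) : 0 < W X s t := by
  unfold W
  have pos : ∀ i, 0 < X i := fun i => lt_of_lt_of_le one_pos (hX i)
  have := Finset.prod_pos fun i (_ : i ∈ Finset.Ico s t) => pos i
  have h1 := pos s
  have h2 := pos (t - 1)
  positivity

theorem W_right {X : ℕ → ℝ} (hX : ∀ i, 1 ≤ X i) (s n : ℕ) (hn : 1 ≤ n) :
    X (s + n) ^ 2 / X (s + n - 1) * W X s (s + n) = W X s (s + n + 1) := by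
  have h1 : 0 < X (s + n - 1) := lt_of_lt_of_le one_pos (hX _)
  unfold W
  rw [Finset.prod_Ico_succ_top (by omega), Nat.add_sub_cancel]
  field_simp

theorem W_left {X : ℕ → ℝ} (hX : ∀ i, 1 ≤ X i) (s t : ℕ) (hn : s < t) :
    X s ^ 2 / X (s + 1) * W X (s + 1) t = W X s t := by
  have h1 : 0 < X (s + 1) := lt_of_lt_of_le one_pos (hX _)
  unfold W
  rw [Finset.prod_eq_prod_Ico_succ_bot hn]
  field_simp

theorem W_two {X : ℕ → ℝ} (hX : ∀ i, 1 ≤ X i) (s i t : ℕ) (h1 : s ≤ i) (h2 : i + 3 < t) :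
    X (i + 1) * X (i + 2) / (X i * X (i + 3)) * (W X s (i + 1) * W X (i + 3) t) = W X s t := by
  have p0 : 0 < X i := lt_of_lt_of_le one_pos (hX _)
  have p3 : 0 < X (i + 3) := lt_of_lt_of_le one_pos (hX _)
  unfold W
  rw [← Finset.prod_Ico_consecutive X (m := s) (n := i + 1) (k := t) (by omega) (by omega),
    Finset.prod_eq_prod_Ico_succ_bot (a := i + 1) (b := t) (by omega),
    Finset.prod_eq_prod_Ico_succ_bot (a := i + 1 + 1) (b := t) (by omega), Nat.add_sub_cancel]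
  have e1 : i + 1 + 1 = i + 2 := rfl
  have e2 : i + 1 + 1 + 1 = i + 3 := rfl
  rw [e1, e2]
  field_simp

/-- The constraint for an inner vertex. -/
theorem con {A : ℕ → Matrix (Fin 3) (Fin 3) ℤ} {a : ℕ} (hA : Good A a) {X : ℕ → ℝ}
    (hX : ∀ i, 1 ≤ X i) {s t : ℕ} {x : ℕ → V} (hx : x ∈ Path A X s t) (i : ℕ) (h1 : s ≤ i)
    (h2 : i + 2 < t) : X (i + 1) ≤ (72 * a ^ 2 + 1) * X i * X (i + 2) := by
  obtain ⟨-, hr, hi, hn⟩ := hx
  have h3 := mid (hA i).2 (hA (i + 1)).2 (hr (i + 1) (by omega) (by omega)).1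
    (hi i h1 (by omega)) (hi (i + 1) (by omega) h2) (hn i h1 h2)
  have h4 : (ht (x (i + 1)) : ℝ) ≤ 18 * a ^ 2 * ht (x i) * ht (x (i + 2)) := by exact_mod_cast h3
  have h5 := (hr (i + 1) (by omega) (by omega)).2.1
  have h6 := (hr i h1 (by omega)).2.2
  have h7 := (hr (i + 2) (by omega) (by omega)).2.2
  have p0 : 0 < X i := lt_of_lt_of_le one_pos (hX _)
  have p1 : 0 < X (i + 2) := lt_of_lt_of_le one_pos (hX _)
  calc X (i + 1) ≤ 18 * a ^ 2 * ht (x i) * ht (x (i + 2)) := h5.trans h4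
    _ ≤ 18 * a ^ 2 * (2 * X i) * (2 * X (i + 2)) := by gcongr
    _ = 72 * a ^ 2 * X i * X (i + 2) := by ring
    _ ≤ (72 * a ^ 2 + 1) * X i * X (i + 2) := by
        have : 0 < X i * X (i + 2) := mul_pos p0 p1
        nlinarith

theorem single {A : ℕ → Matrix (Fin 3) (Fin 3) ℤ} {X : ℕ → ℝ} (hX : ∀ i, 1 ≤ X i) (s : ℕ) :
    Bd (Path A X s (s + 1)) (125 * W X s (s + 1)) := by
  have h1 : 1 ≤ X s := hX s
  have h2 : Bd {v : V | (ht v : ℝ) ≤ 2 * X s} (125 * X s ^ 3) := by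
    have h3 : {v : V | (ht v : ℝ) ≤ 2 * X s} ⊆ ↑(Pool.Agent.H548.WM.bx 3 ⌊2 * X s⌋₊) := by
      intro v hv
      rw [Finset.mem_coe, mem_bx]
      exact Nat.le_floor hv
    refine ⟨(Finset.finite_toSet _).subset h3, ?_⟩
    have h4 := Set.ncard_le_ncard h3 (Finset.finite_toSet _)
    rw [Set.ncard_coe_finset, Pool.Agent.H548.WM.card_bx] at h4
    have h5 : ((⌊2 * X s⌋₊ : ℕ) : ℝ) ≤ 2 * X s := Nat.floor_le (by linarith)
    calc ({v : V | (ht v : ℝ) ≤ 2 * X s}.ncard : ℝ)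
        ≤ (((2 * ⌊2 * X s⌋₊ + 1) ^ 3 : ℕ) : ℝ) := by exact_mod_cast h4
      _ = (2 * (⌊2 * X s⌋₊ : ℝ) + 1) ^ 3 := by push_cast; ring
      _ ≤ (5 * X s) ^ 3 := by
          apply pow_le_pow_left₀ (by positivity)
          linarith
      _ = 125 * X s ^ 3 := by ring
  have h6 : W X s (s + 1) = X s ^ 3 := by
    unfold W
    rw [Nat.Ico_succ_singleton, Finset.prod_singleton, Nat.add_sub_cancel]
    ring
  rw [h6]
  apply h2.inj (fun x => x s)
  · intro x hx
    exact (hx.2.1 s le_rfl (by omega)).2.2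
  · intro x hx x' hx' h
    funext i
    by_cases hi : i = s
    · rw [hi]
      exact h
    · rw [hx.1 i (by omega), hx'.1 i (by omega)]

/-- The number of chains with `n` vertices. -/
theorem path (a n : ℕ) (hn : 1 ≤ n) (ε : ℝ) (hε : 0 < ε) : ∃ C : ℝ, 0 ≤ C ∧
    ∀ (A : ℕ → Matrix (Fin 3) (Fin 3) ℤ) (X : ℕ → ℝ) (s : ℕ) (Z : ℝ), Good A a →
      (∀ i, 1 ≤ X i) → (∀ i, s ≤ i → i < s + n → X i ≤ Z) →
        Bd (Path A X s (s + n)) (C * W X s (s + n) * Z ^ ε) := by
  induction n using Nat.strong_induction_on generalizing ε with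
  | _ n ih =>
    rcases Nat.lt_or_ge n 2 with hn2 | hn2
    · obtain rfl : n = 1 := by omega
      refine ⟨125, by norm_num, ?_⟩
      intro A X s Z hA hX hZ
      have hZ1 : 1 ≤ Z := (hX s).trans (hZ s le_rfl (by omega))
      refine (single hX s).mono subset_rfl ?_
      have := W_pos hX s (s + 1)
      have h1 : 1 ≤ Z ^ ε := Real.one_le_rpow hZ1 hε.le
      calc 125 * W X s (s + 1) = 125 * W X s (s + 1) * 1 := (mul_one _).symm
        _ ≤ 125 * W X s (s + 1) * Z ^ ε := by gcongr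
    -- the constants
    obtain ⟨C1, hC1, h1⟩ := ih (n - 1) (by omega) (by omega) ε hε
    have hsub : ∀ j : ℕ, ∃ C : ℝ, 0 ≤ C ∧ (j + 3 < n → ∀ (A : ℕ → Matrix (Fin 3) (Fin 3) ℤ)
        (X : ℕ → ℝ) (s : ℕ) (Z : ℝ), Good A a → (∀ i, 1 ≤ X i) →
        (∀ i, s ≤ i → i < s + (j + 1) → X i ≤ Z) →
          Bd (Path A X s (s + (j + 1))) (C * W X s (s + (j + 1)) * Z ^ (ε / 3))) := by
      intro j
      by_cases hj : j + 3 < n
      · obtain ⟨C, hC, h⟩ := ih (j + 1) (by omega) (by omega) (ε / 3) (by positivity)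
        exact ⟨C, hC, fun _ => h⟩
      · exact ⟨0, le_rfl, fun h => absurd h hj⟩
    choose c hc hcb using hsub
    obtain ⟨Cp, hCp, hpair⟩ := pair_bd a (ε / 3) (by positivity)
    set κ : ℝ := 72 * a ^ 2 + 1 with hκ
    have hκ1 : 1 ≤ κ := by
      have : (0 : ℝ) ≤ 72 * a ^ 2 := by positivity
      linarith
    set Ce : ℝ := (κ + 2592 * a ^ 5) * C1 with hCe
    have hCe0 : 0 ≤ Ce := by positivity
    set S : ℝ := ∑ j ∈ Finset.range n, Cp * (κ + 1) * (c j * c (n - 4 - j)) with hS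
    have hS0 : 0 ≤ S := Finset.sum_nonneg fun j _ => by
      have := hc j
      have := hc (n - 4 - j)
      positivity
    refine ⟨Ce + S, by positivity, ?_⟩
    intro A X s Z hA hX hZ
    have hZ1 : 1 ≤ Z := (hX s).trans (hZ s le_rfl (by omega))
    have hZ0 : 0 < Z := by linarith
    have pos : ∀ i, 0 < X i := fun i => lt_of_lt_of_le one_pos (hX i)
    have hWp := W_pos hX s (s + n)
    have hZe : 0 < Z ^ ε := Real.rpow_pos_of_pos hZ0 _
    rcases (Path A X s (s + n)).eq_empty_or_nonempty with he | ⟨x0, hx0⟩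
    · rw [he]
      exact Bd.empty (by positivity)
    have hcases := comb κ hκ1 (fun i => X (s + i)) (fun i => hX _) n hn2
      (fun h3 => con hA hX hx0 s le_rfl (by omega))
      (fun h3 => by
        have := con hA hX hx0 (s + (n - 3)) (by omega) (by omega)
        have e1 : s + (n - 3) + 1 = s + (n - 2) := by omega
        have e2 : s + (n - 3) + 2 = s + (n - 1) := by omega
        rw [e1, e2] at this
        exact this)
    rcases hcases with hR | hL | ⟨j, hj, hj'⟩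
    · -- the last vertex
      have hb := h1 A X s Z hA hX (fun i hi hi' => hZ i hi (by omega))
      have e0 : s + (n - 1) = s + n - 1 := by omega
      rw [e0] at hb
      have hfib : Bd (Path A X s (s + n)) ((1 + 2592 * a ^ 5 * (X (s + n - 1) ^ 2 /
          X (s + n - 2))) * (C1 * W X s (s + n - 1) * Z ^ ε)) := by
        apply hb.fib (fun x => cut x s (s + n - 1))
          (fun x hx => cut_mem hx le_rfl (by omega))
        · have := pos (s + n - 2)
          positivity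
        intro y hy
        have hry := hy.2.1 (s + n - 2) (by omega) (by omega)
        have hM := hA (s + n - 2)
        have hend := end_bd (M := (A (s + n - 2))ᵀ) hM.2.tr (by rw [det_transpose]; exact hM.1)
          hry.1 (hX _) hry.2.1 (Y := X (s + n - 1)) (pos _).le
        apply hend.inj (fun x => x (s + n - 1))
        · rintro x ⟨hx, hxy⟩
          have h5 := hx.2.1 (s + n - 1) (by omega) (by omega)
          refine ⟨h5.1, ?_, h5.2.2⟩
          have h6 := hx.2.2.1 (s + n - 2) (by omega) (by omega)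
          have e1 : s + n - 2 + 1 = s + n - 1 := by omega
          rw [e1] at h6
          have h7 : y (s + n - 2) = x (s + n - 2) := by
            rw [← hxy]
            exact cut_in (by omega) (by omega)
          rw [tr_dot, h7]
          exact h6
        · rintro x ⟨hx, hxy⟩ x' ⟨hx', hxy'⟩ h
          funext i
          by_cases hi : s ≤ i ∧ i < s + n
          · by_cases hi2 : i = s + n - 1
            · rw [hi2]
              exact h
            · have h6 : i < s + n - 1 := by omega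
              rw [← cut_in (x := x) hi.1 h6, ← cut_in (x := x') hi.1 h6]
              have := hxy.trans hxy'.symm
              exact congrFun this i
          · rw [hx.1 i hi, hx'.1 i hi]
      refine hfib.mono subset_rfl ?_
      have e1 := W_right hX s (n - 1) (by omega)
      have e2 : s + (n - 1) = s + n - 1 := by omega
      have e3 : s + n - 1 + 1 = s + n := by omega
      have e4 : s + n - 1 - 1 = s + n - 2 := by omega
      rw [e2, e3, e4] at e1
      have hR' : X (s + n - 2) ≤ κ * X (s + n - 1) ^ 2 := by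
        have e5 : s + (n - 2) = s + n - 2 := by omega
        simp only [e5, e2] at hR
        exact hR
      have p2 := pos (s + n - 2)
      have h8 : 1 ≤ κ * (X (s + n - 1) ^ 2 / X (s + n - 2)) := by
        rw [← mul_div_assoc, le_div_iff₀ p2]
        linarith
      have hW1 := W_pos hX s (s + n - 1)
      calc (1 + 2592 * a ^ 5 * (X (s + n - 1) ^ 2 / X (s + n - 2))) *
            (C1 * W X s (s + n - 1) * Z ^ ε)
          ≤ (κ * (X (s + n - 1) ^ 2 / X (s + n - 2)) + 2592 * a ^ 5 * (X (s + n - 1) ^ 2 /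
            X (s + n - 2))) * (C1 * W X s (s + n - 1) * Z ^ ε) := by gcongr
        _ = Ce * (X (s + n - 1) ^ 2 / X (s + n - 2) * W X s (s + n - 1)) * Z ^ ε := by
            rw [hCe]
            ring
        _ = Ce * W X s (s + n) * Z ^ ε := by rw [e1]
        _ ≤ (Ce + S) * W X s (s + n) * Z ^ ε := by gcongr; linarith
    · -- the first vertex
      have hb := h1 A X (s + 1) Z hA hX (fun i hi hi' => hZ i (by omega) (by omega))
      have e0 : s + 1 + (n - 1) = s + n := by omega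
      rw [e0] at hb
      have hfib : Bd (Path A X s (s + n)) ((1 + 2592 * a ^ 5 * (X s ^ 2 / X (s + 1))) *
          (C1 * W X (s + 1) (s + n) * Z ^ ε)) := by
        apply hb.fib (fun x => cut x (s + 1) (s + n))
          (fun x hx => cut_mem hx (by omega) le_rfl)
        · have := pos (s + 1)
          positivity
        intro y hy
        have hry := hy.2.1 (s + 1) (by omega) (by omega)
        have hM := hA s
        have hend := end_bd (M := A s) hM.2 hM.1
          hry.1 (hX _) hry.2.1 (Y := X s) (pos _).le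
        apply hend.inj (fun x => x s)
        · rintro x ⟨hx, hxy⟩
          have h5 := hx.2.1 s le_rfl (by omega)
          refine ⟨h5.1, ?_, h5.2.2⟩
          have h6 := hx.2.2.1 s le_rfl (by omega)
          have h7 : y (s + 1) = x (s + 1) := by
            rw [← hxy]
            exact cut_in (by omega) (by omega)
          rw [h7, dotProduct_comm]
          exact h6
        · rintro x ⟨hx, hxy⟩ x' ⟨hx', hxy'⟩ h
          funext i
          by_cases hi : s ≤ i ∧ i < s + n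
          · by_cases hi2 : i = s
            · rw [hi2]
              exact h
            · have h6 : s + 1 ≤ i := by omega
              rw [← cut_in (x := x) h6 hi.2, ← cut_in (x := x') h6 hi.2]
              have := hxy.trans hxy'.symm
              exact congrFun this i
          · rw [hx.1 i hi, hx'.1 i hi]
      refine hfib.mono subset_rfl ?_
      have e1 := W_left hX s (s + n) (by omega)
      have p2 := pos (s + 1)
      have h8 : 1 ≤ κ * (X s ^ 2 / X (s + 1)) := by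
        rw [← mul_div_assoc, le_div_iff₀ p2]
        have : X (s + 1) ≤ κ * X s ^ 2 := hL
        linarith
      have hW1 := W_pos hX (s + 1) (s + n)
      calc (1 + 2592 * a ^ 5 * (X s ^ 2 / X (s + 1))) * (C1 * W X (s + 1) (s + n) * Z ^ ε)
          ≤ (κ * (X s ^ 2 / X (s + 1)) + 2592 * a ^ 5 * (X s ^ 2 / X (s + 1))) *
            (C1 * W X (s + 1) (s + n) * Z ^ ε) := by gcongr
        _ = Ce * (X s ^ 2 / X (s + 1) * W X (s + 1) (s + n)) * Z ^ ε := by
            rw [hCe]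
            ring
        _ = Ce * W X s (s + n) * Z ^ ε := by rw [e1]
        _ ≤ (Ce + S) * W X s (s + n) * Z ^ ε := by gcongr; linarith
    · -- two inner vertices
      have hbl := hcb j hj A X s Z hA hX (fun i hi hi' => hZ i hi (by omega))
      have hj2 : (n - 4 - j) + 3 < n := by omega
      have hbr := hcb (n - 4 - j) hj2 A X (s + j + 3) Z hA hX
        (fun i hi hi' => hZ i (by omega) (by omega))
      have e0 : s + j + 3 + (n - 4 - j + 1) = s + n := by omega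
      have e00 : s + (j + 1) = s + j + 1 := rfl
      rw [e0] at hbr
      rw [e00] at hbl
      have hbp := hbl.prod hbr
      have hfib : Bd (Path A X s (s + n)) ((Cp * (1 + X (s + j + 1) * X (s + j + 2) /
          (X (s + j) * X (s + j + 3))) * Z ^ (ε / 3)) *
          ((c j * W X s (s + j + 1) * Z ^ (ε / 3)) *
            (c (n - 4 - j) * W X (s + j + 3) (s + n) * Z ^ (ε / 3)))) := by
        apply hbp.fib (fun x => (cut x s (s + j + 1), cut x (s + j + 3) (s + n)))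
          (fun x hx => ⟨cut_mem hx le_rfl (by omega), cut_mem hx (by omega) le_rfl⟩)
        · have := pos (s + j)
          have := pos (s + j + 1)
          have := pos (s + j + 2)
          have := pos (s + j + 3)
          positivity
        rintro ⟨y, y'⟩ ⟨hy, hy'⟩
        simp only at hy hy'
        rcases Set.eq_empty_or_nonempty {x ∈ Path A X s (s + n) |
          (cut x s (s + j + 1), cut x (s + j + 3) (s + n)) = (y, y')} with hem | ⟨x1, hx1, hxy1⟩
        · rw [hem]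
          apply Bd.empty
          have := pos (s + j)
          have := pos (s + j + 1)
          have := pos (s + j + 2)
          have := pos (s + j + 3)
          positivity
        have hval : ∀ x, (cut x s (s + j + 1), cut x (s + j + 3) (s + n)) = (y, y') →
            x (s + j) = y (s + j) ∧ x (s + j + 3) = y' (s + j + 3) := by
          intro x hx
          rw [Prod.mk.injEq] at hx
          constructor
          · rw [← hx.1]
            exact (cut_in (by omega) (by omega)).symm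
          · rw [← hx.2]
            exact (cut_in (by omega) (by omega)).symm
        have hry := hy.2.1 (s + j) (by omega) (by omega)
        have hry' := hy'.2.1 (s + j + 3) (by omega) (by omega)
        have hM0 := hA (s + j)
        have hM1 := hA (s + j + 1)
        have hM2 := hA (s + j + 2)
        have hδ : ((A (s + j + 1)).adjugate *ᵥ ((A (s + j))ᵀ *ᵥ y (s + j))) ⬝ᵥ
            (A (s + j + 2) *ᵥ y' (s + j + 3)) ≠ 0 := by
          obtain ⟨v1, v2⟩ := hval x1 hxy1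
          rw [← v1, ← v2]
          apply delta_ne hM1.1 (y := x1 (s + j + 1)) (z := x1 (s + j + 2))
          · rw [tr_dot]
            exact hx1.2.2.1 (s + j) (by omega) (by omega)
          · rw [dotProduct_comm]
            exact hx1.2.2.1 (s + j + 2) (by omega) (by omega)
          · exact hx1.2.2.1 (s + j + 1) (by omega) (by omega)
          · exact hx1.2.2.2 (s + j) (by omega) (by omega)
          · exact hx1.2.2.2 (s + j + 1) (by omega) (by omega)
        have hpb := hpair (A (s + j)) (A (s + j + 1)) (A (s + j + 2)) hM0.2 hM0.1 hM1.2 hM1.1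
          hM2.2 hM2.1 (y (s + j)) (y' (s + j + 3)) hry.1 hry'.1 (X (s + j)) (X (s + j + 3))
          (X (s + j + 1)) (X (s + j + 2)) Z (hX _) hry.2.1 hry.2.2 (hX _) hry'.2.1 hry'.2.2
          (hZ _ (by omega) (by omega)) (hZ _ (by omega) (by omega)) (pos _).le (pos _).le hδ
        apply hpb.inj (fun x => (x (s + j + 1), x (s + j + 2)))
        · rintro x ⟨hx, hxy⟩
          obtain ⟨v1, v2⟩ := hval x hxy
          have h5 := hx.2.1 (s + j + 1) (by omega) (by omega)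
          have h6 := hx.2.1 (s + j + 2) (by omega) (by omega)
          refine ⟨h5.1, h6.1, ?_, ?_, ?_, h5.2.2, h6.2.2⟩
          · rw [tr_dot, ← v1]
            exact hx.2.2.1 (s + j) (by omega) (by omega)
          · rw [dotProduct_comm, ← v2]
            exact hx.2.2.1 (s + j + 2) (by omega) (by omega)
          · exact hx.2.2.1 (s + j + 1) (by omega) (by omega)
        · rintro x ⟨hx, hxy⟩ x' ⟨hx', hxy'⟩ h
          rw [Prod.mk.injEq] at h hxy hxy'
          funext i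
          by_cases hi : s ≤ i ∧ i < s + n
          · by_cases hi2 : i < s + j + 1
            · rw [← cut_in (x := x) hi.1 hi2, ← cut_in (x := x') hi.1 hi2]
              exact congrFun (hxy.1.trans hxy'.1.symm) i
            · by_cases hi3 : s + j + 3 ≤ i
              · rw [← cut_in (x := x) hi3 hi.2, ← cut_in (x := x') hi3 hi.2]
                exact congrFun (hxy.2.trans hxy'.2.symm) i
              · by_cases hi4 : i = s + j + 1
                · rw [hi4]
                  exact h.1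
                · have hi5 : i = s + j + 2 := by omega
                  rw [hi5]
                  exact h.2
          · rw [hx.1 i hi, hx'.1 i hi]
      refine hfib.mono subset_rfl ?_
      have e1 := W_two hX s (s + j) (s + n) (by omega) (by omega)
      have p0 := pos (s + j)
      have p1 := pos (s + j + 1)
      have p2 := pos (s + j + 2)
      have p3 := pos (s + j + 3)
      have h8 : 1 ≤ κ * (X (s + j + 1) * X (s + j + 2) / (X (s + j) * X (s + j + 3))) := by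
        rw [← mul_div_assoc, le_div_iff₀ (by positivity)]
        have : X (s + j) * X (s + (j + 3)) ≤ κ * (X (s + (j + 1)) * X (s + (j + 2))) := hj'
        have f1 : s + (j + 3) = s + j + 3 := rfl
        have f2 : s + (j + 1) = s + j + 1 := rfl
        have f3 : s + (j + 2) = s + j + 2 := rfl
        rw [f1, f2, f3] at this
        linarith
      have hW1 := W_pos hX s (s + j + 1)
      have hW2 := W_pos hX (s + j + 3) (s + n)
      have hc1 := hc j
      have hc2 := hc (n - 4 - j)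
      have hz3 : Z ^ ε = Z ^ (ε / 3) * (Z ^ (ε / 3) * Z ^ (ε / 3)) := by
        rw [← Real.rpow_add hZ0, ← Real.rpow_add hZ0]
        congr 1
        ring
      have hSj : Cp * (κ + 1) * (c j * c (n - 4 - j)) ≤ S := by
        rw [hS]
        apply Finset.single_le_sum (f := fun j => Cp * (κ + 1) * (c j * c (n - 4 - j)))
          (fun i _ => by
            have := hc i
            have := hc (n - 4 - i)
            positivity)
        exact Finset.mem_range.2 (by omega)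
      set q := X (s + j + 1) * X (s + j + 2) / (X (s + j) * X (s + j + 3)) with hq
      have hq0 : 0 < q := by positivity
      calc Cp * (1 + q) * Z ^ (ε / 3) * (c j * W X s (s + j + 1) * Z ^ (ε / 3) *
            (c (n - 4 - j) * W X (s + j + 3) (s + n) * Z ^ (ε / 3)))
          ≤ Cp * (κ * q + q) * Z ^ (ε / 3) * (c j * W X s (s + j + 1) * Z ^ (ε / 3) *
            (c (n - 4 - j) * W X (s + j + 3) (s + n) * Z ^ (ε / 3))) := by gcongr
        _ = (Cp * (κ + 1) * (c j * c (n - 4 - j))) *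
            (q * (W X s (s + j + 1) * W X (s + j + 3) (s + n))) * Z ^ ε := by
            rw [hz3]
            ring
        _ = (Cp * (κ + 1) * (c j * c (n - 4 - j))) * W X s (s + n) * Z ^ ε := by rw [e1]
        _ ≤ S * W X s (s + n) * Z ^ ε := by gcongr
        _ ≤ (Ce + S) * W X s (s + n) * Z ^ ε := by gcongr; linarith

end Pool.Agent.K1H88.PG
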