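import Pool.Agent.K1H88.PG.Cyc

/-! From boxes to heights. -/

namespace Pool.Agent.K1H88.PG

open Matrix
open Pool.Agent.H548.WM (ht Rep le_ht' ht_le mem_bx)

variable {m : ℕ} [NeZero m]

/-- The cone generated by the classes `H_j` and `E_j = H_(j-1) - H_j + H_(j+1)`; the class with the
coordinates `y` is `∑ y_j H_j`. -/
def Eff (y : ZMod m → ℝ) : Prop :=
  ∃ a b : ZMod m → ℝ, (∀ j, 0 ≤ a j) ∧ (∀ j, 0 ≤ b j) ∧
    ∀ j, y j = b j + (a (j - 1) - a j + a (j + 1))

/-- The class is in the interior of the cone. -/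
def Big (l : ZMod m → ℝ) : Prop := ∃ η : ℝ, 0 < η ∧ Eff fun j => l j - η

/-- The infimum of all `t` such that `t L + K` is in the cone, where `K = (-1, …, -1)`. -/
noncomputable def fuj (l : ZMod m → ℝ) : ℝ := sInf {t : ℝ | Eff fun j => t * l j - 1}

/-- The rational points of the open set with height at most `T`. -/
def pts (A : ZMod m → Matrix (Fin 3) (Fin 3) ℤ) (l : ZMod m → ℝ) (T : ℝ) : Set (ZMod m → V) :=
  {x | (∀ i, Rep (x i)) ∧ (∀ i, x i ⬝ᵥ (A i *ᵥ x (i + 1)) = 0) ∧
    (∀ i, ((A i)ᵀ *ᵥ x i) ⨯₃ (A (i + 1) *ᵥ x (i + 2)) ≠ 0) ∧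
    ∏ i, (ht (x i) : ℝ) ^ l i ≤ T}

omit [NeZero m] in
theorem Eff.pair {y : ZMod m → ℝ} (h : Eff y) (i : ZMod m) : 0 ≤ y i + y (i + 1) := by
  obtain ⟨a, b, ha, hb, hy⟩ := h
  rw [hy, hy, add_sub_cancel_right, add_assoc i 1 1]
  have h1 := ha (i - 1)
  have h2 := ha (i + (1 + 1))
  have h3 := hb i
  have h4 := hb (i + 1)
  linarith

/-- The pairing with the logarithms of the heights. -/
theorem Eff.dot {y : ZMod m → ℝ} (h : Eff y) : ∃ K : ℝ, 0 ≤ K ∧ ∀ (c : ℝ) (v : ZMod m → ℝ), 0 ≤ c →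
    (∀ i, 0 ≤ v i) → (∀ i, v i ≤ c + (v (i - 1) + v (i + 1))) → -(K * c) ≤ ∑ j, y j * v j := by
  obtain ⟨a, b, ha, hb, hy⟩ := h
  refine ⟨∑ j, a j, Finset.sum_nonneg fun j _ => ha j, ?_⟩
  intro c v hc hv hv'
  have s1 : ∑ j, a (j - 1) * v j = ∑ j, a j * v (j + 1) := by
    rw [← Equiv.sum_comp (Equiv.subRight (1 : ZMod m)) fun j => a j * v (j + 1)]
    apply Finset.sum_congr rfl
    intro j _
    rw [Equiv.subRight_apply, sub_add_cancel]
  have s2 : ∑ j, a (j + 1) * v j = ∑ j, a j * v (j - 1) := by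
    rw [← Equiv.sum_comp (Equiv.addRight (1 : ZMod m)) fun j => a j * v (j - 1)]
    apply Finset.sum_congr rfl
    intro j _
    rw [Equiv.coe_addRight, add_sub_cancel_right]
  have e : ∑ j, y j * v j = ∑ j, b j * v j + ∑ j, a j * (v (j - 1) + v (j + 1) - v j) := by
    calc ∑ j, y j * v j = ∑ j, (b j * v j + (a (j - 1) * v j - a j * v j + a (j + 1) * v j)) := by
          apply Finset.sum_congr rfl
          intro j _
          rw [hy]
          ring
      _ = ∑ j, b j * v j + (∑ j, a j * v (j + 1) - ∑ j, a j * v j + ∑ j, a j * v (j - 1)) := by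
          rw [Finset.sum_add_distrib, Finset.sum_add_distrib, Finset.sum_sub_distrib, s1, s2]
      _ = _ := by
          rw [← Finset.sum_sub_distrib, ← Finset.sum_add_distrib]
          congr 1
          apply Finset.sum_congr rfl
          intro j _
          ring
  have h1 : 0 ≤ ∑ j, b j * v j := Finset.sum_nonneg fun j _ => mul_nonneg (hb j) (hv j)
  have h2 : ∑ j, a j * (-c) ≤ ∑ j, a j * (v (j - 1) + v (j + 1) - v j) := by
    apply Finset.sum_le_sum
    intro j _
    apply mul_le_mul_of_nonneg_left _ (ha j)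
    have := hv' j
    linarith
  rw [← Finset.sum_mul] at h2
  rw [e]
  linarith

omit [NeZero m] in
theorem eff_mono {y z : ZMod m → ℝ} (h : Eff y) (hyz : ∀ i, y i ≤ z i) : Eff z := by
  obtain ⟨a, b, ha, hb, hy⟩ := h
  refine ⟨a, fun j => b j + (z j - y j), ha, fun j => ?_, fun j => ?_⟩
  · have := hb j
    have := hyz j
    linarith
  · have := hy j
    linarith

omit [NeZero m] in
theorem Eff.smul {y : ZMod m → ℝ} (h : Eff y) {c : ℝ} (hc : 0 ≤ c) : Eff fun j => c * y j := by
  obtain ⟨a, b, ha, hb, hy⟩ := h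
  refine ⟨fun j => c * a j, fun j => c * b j, fun j => mul_nonneg hc (ha j),
    fun j => mul_nonneg hc (hb j), fun j => ?_⟩
  simp only
  rw [hy]
  ring

omit [NeZero m] in
theorem fuj_set {l : ZMod m → ℝ} (hl : Big l) : {t : ℝ | Eff fun j => t * l j - 1}.Nonempty := by
  obtain ⟨η, hη, h⟩ := hl
  refine ⟨1 / η, ?_⟩
  apply eff_mono (h.smul (c := 1 / η) (by positivity))
  intro i
  have : 1 / η * (l i - η) = 1 / η * l i - 1 := by
    field_simp
  exact this.le

/-- The number of rational points. -/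
theorem upper (hm : 3 ≤ m) (A : ZMod m → Matrix (Fin 3) (Fin 3) ℤ) (hA : ∀ i, (A i).det ≠ 0)
    (l : ZMod m → ℝ) (hl : Big l) (ε : ℝ) (hε : 0 < ε) :
    ∃ C : ℝ, ∀ T : ℝ, 1 ≤ T → Bd (pts A l T) (C * T ^ (fuj l + ε)) := by
  classical
  -- the entries
  set a : ℕ := ∑ i, ∑ j, ∑ k, (A i j k).natAbs with ha
  have hent : ∀ i, Ent (A i) a := by
    intro i j k
    rw [Int.abs_eq_natAbs]
    have h1 : (A i j k).natAbs ≤ ∑ k, (A i j k).natAbs :=
      Finset.single_le_sum (f := fun k => (A i j k).natAbs) (fun _ _ => Nat.zero_le _)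
        (Finset.mem_univ k)
    have h2 : ∑ k, (A i j k).natAbs ≤ ∑ j, ∑ k, (A i j k).natAbs :=
      Finset.single_le_sum (f := fun j => ∑ k, (A i j k).natAbs) (fun _ _ => Nat.zero_le _)
        (Finset.mem_univ j)
    have h3 : ∑ j, ∑ k, (A i j k).natAbs ≤ a :=
      Finset.single_le_sum (f := fun i => ∑ j, ∑ k, (A i j k).natAbs) (fun _ _ => Nat.zero_le _)
        (Finset.mem_univ i)
    exact_mod_cast h1.trans (h2.trans h3)
  obtain ⟨t, ht1, ht2⟩ := exists_lt_of_csInf_lt (fuj_set hl)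
    (show sInf {t : ℝ | Eff fun j => t * l j - 1} < fuj l + ε / 2 by
      unfold fuj
      linarith)
  have ht1' : Eff fun j => t * l j - 1 := ht1
  obtain ⟨K2, hK2, hd2⟩ := ht1'.dot
  obtain ⟨η, hη, hbig⟩ := hl
  obtain ⟨K1, hK1, hd1⟩ := hbig.dot
  have htpos : 0 < t := by
    have h1 := ht1'.pair 0
    have h2 := hbig.pair 0
    by_contra hc
    push Not at hc
    nlinarith
  set κ : ℝ := 18 * a ^ 2 + 1 with hκ
  have hκ1 : 1 ≤ κ := by
    have : (0 : ℝ) ≤ 18 * a ^ 2 := by positivity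
    linarith
  set c := Real.log κ with hc
  have hc0 : 0 ≤ c := Real.log_nonneg hκ1
  have hlog2 : 0 < Real.log 2 := Real.log_pos (by norm_num)
  set ε' : ℝ := η * ε / 4 with hε'
  have hε'0 : 0 < ε' := by positivity
  obtain ⟨C, hC, hcyc⟩ := cyc hm a ε' hε'0
  set δ : ℝ := ε / (4 * m) with hδ
  have hm0 : (0 : ℝ) < m := by
    have : 0 < m := by omega
    exact_mod_cast this
  have hδ0 : 0 < δ := by positivity
  -- the constants
  set D : ℝ := (1 / (η * Real.log 2)) * (1 / δ + K1 * c) + 1 with hD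
  have hD0 : 0 < D := by positivity
  refine ⟨D ^ m * (C * Real.exp (K2 * c) * Real.exp (K1 * c * (ε / 4))), ?_⟩
  intro T hT
  have hT0 : 0 < T := by linarith
  have hlT : 0 ≤ Real.log T := Real.log_nonneg hT
  set R : ℝ := (Real.log T + K1 * c) / (η * Real.log 2) with hR
  have hR0 : 0 ≤ R := by positivity
  -- facts about a point
  have hpt : ∀ x ∈ pts A l T, (∀ i, Real.log (ht (x i)) ≤ (Real.log T + K1 * c) / η) ∧
      ∑ i, Real.log (ht (x i)) ≤ t * Real.log T + K2 * c := by
    rintro x ⟨hr, hi, hn, hH⟩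
    have hpos : ∀ i, (1 : ℝ) ≤ ht (x i) := fun i => by
      exact_mod_cast ht_pos (rep_ne (hr i))
    set v : ZMod m → ℝ := fun i => Real.log (ht (x i)) with hv
    have hv0 : ∀ i, 0 ≤ v i := fun i => Real.log_nonneg (hpos i)
    have hvc : ∀ i, v i ≤ c + (v (i - 1) + v (i + 1)) := by
      intro i
      have h1 := hi (i - 1)
      have h2 := hi i
      have h3 := hn (i - 1)
      have e1 : i - 1 + 1 = i := by ring
      have e2 : i - 1 + 2 = i + 1 := by ring
      rw [e1] at h1
      rw [e1, e2] at h3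
      have h4 := mid (hent (i - 1)) (hent i) (hr i) h1 h2 h3
      have h5 : (ht (x i) : ℝ) ≤ 18 * a ^ 2 * ht (x (i - 1)) * ht (x (i + 1)) := by
        exact_mod_cast h4
      have p1 := hpos (i - 1)
      have p2 := hpos (i + 1)
      have h6 : (ht (x i) : ℝ) ≤ κ * (ht (x (i - 1)) * ht (x (i + 1))) := by
        refine h5.trans ?_
        rw [hκ]
        have : (0 : ℝ) ≤ ht (x (i - 1)) * ht (x (i + 1)) := by positivity
        nlinarith
      have h7 := Real.log_le_log (by linarith [hpos i]) h6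
      rw [Real.log_mul (by linarith) (by positivity), Real.log_mul (by positivity)
        (by positivity)] at h7
      exact h7
    have hlogH : ∑ i, l i * v i ≤ Real.log T := by
      have h1 : Real.log (∏ i, (ht (x i) : ℝ) ^ l i) = ∑ i, l i * v i := by
        rw [Real.log_prod fun i _ => (Real.rpow_pos_of_pos (by linarith [hpos i]) _).ne']
        apply Finset.sum_congr rfl
        intro i _
        rw [Real.log_rpow (by linarith [hpos i])]
      rw [← h1]
      exact Real.log_le_log (Finset.prod_pos fun i _ =>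
        Real.rpow_pos_of_pos (by linarith [hpos i]) _) hH
    constructor
    · have h1 := hd1 c v hc0 hv0 hvc
      have h2 : ∑ j, (l j - η) * v j = ∑ j, l j * v j - η * ∑ j, v j := by
        rw [Finset.mul_sum, ← Finset.sum_sub_distrib]
        apply Finset.sum_congr rfl
        intro j _
        ring
      rw [h2] at h1
      intro i
      rw [le_div_iff₀ hη]
      have h3 : v i ≤ ∑ j, v j := Finset.single_le_sum (f := v) (fun j _ => hv0 j)
        (Finset.mem_univ i)
      have h4 : v i * η ≤ η * ∑ j, v j := by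
        rw [mul_comm]
        exact mul_le_mul_of_nonneg_left h3 hη.le
      change v i * η ≤ _
      linarith
    · have h1 := hd2 c v hc0 hv0 hvc
      have h2 : ∑ j, (t * l j - 1) * v j = t * ∑ j, l j * v j - ∑ j, v j := by
        rw [Finset.mul_sum, ← Finset.sum_sub_distrib]
        apply Finset.sum_congr rfl
        intro j _
        ring
      rw [h2] at h1
      have h3 : t * ∑ j, l j * v j ≤ t * Real.log T := mul_le_mul_of_nonneg_left hlogH htpos.le
      change ∑ j, v j ≤ _
      linarith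
  -- the dyadic classes
  set k : (ZMod m → V) → (ZMod m → ℕ) := fun x i => Nat.log 2 (ht (x i)) with hk
  set N : ℕ := ⌊R⌋₊ with hN
  set P : Finset (ZMod m → ℕ) := Fintype.piFinset fun _ => Finset.range (N + 1) with hP
  have hkpt : ∀ x ∈ pts A l T, ∀ i, ((2 : ℝ) ^ k x i ≤ ht (x i)) ∧
      (ht (x i) : ℝ) ≤ 2 * 2 ^ k x i := by
    rintro x ⟨hr, -⟩ i
    have h1 := ht_pos (rep_ne (hr i))
    constructor
    · exact_mod_cast Nat.pow_log_le_self 2 (by omega)
    · have h2 := Nat.lt_pow_succ_log_self (b := 2) (by norm_num) (ht (x i))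
      have h3 : (ht (x i) : ℝ) < 2 ^ (Nat.log 2 (ht (x i)) + 1) := by exact_mod_cast h2
      rw [pow_succ] at h3
      simp only [hk]
      linarith
  have hmaps : Set.MapsTo k (pts A l T) (P : Set (ZMod m → ℕ)) := by
    intro x hx
    rw [Finset.mem_coe, hP, Fintype.mem_piFinset]
    intro i
    rw [Finset.mem_range, Nat.lt_succ_iff, hN]
    apply Nat.le_floor
    rw [hR, le_div_iff₀ (by positivity)]
    have h1 := (hkpt x hx i).1
    have h2 := Real.log_le_log (by positivity) h1
    rw [Real.log_pow] at h2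
    have h3 := (hpt x hx).1 i
    rw [le_div_iff₀ hη] at h3
    calc (k x i : ℝ) * (η * Real.log 2) = ((k x i : ℝ) * Real.log 2) * η := by ring
      _ ≤ Real.log (ht (x i)) * η := mul_le_mul_of_nonneg_right h2 hη.le
      _ ≤ _ := h3
  have hPb : Bd (P : Set (ZMod m → ℕ)) ((D * T ^ δ) ^ m) := by
    refine ⟨Finset.finite_toSet _, ?_⟩
    rw [Set.ncard_coe_finset, hP, Fintype.card_piFinset]
    rw [Finset.prod_const, Finset.card_range, Finset.card_univ, ZMod.card]
    push_cast
    apply pow_le_pow_left₀ (by positivity)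
    have h1 : (N : ℝ) ≤ R := Nat.floor_le hR0
    have h2 : Real.log T ≤ T ^ δ / δ := Real.log_le_rpow_div hT0.le hδ0
    have h3 : 1 ≤ T ^ δ := Real.one_le_rpow hT hδ0.le
    have h4 : R ≤ (1 / (η * Real.log 2)) * (1 / δ + K1 * c) * T ^ δ := by
      rw [hR]
      calc (Real.log T + K1 * c) / (η * Real.log 2)
          = (1 / (η * Real.log 2)) * (Real.log T + K1 * c) := by ring
        _ ≤ (1 / (η * Real.log 2)) * (T ^ δ / δ + K1 * c * T ^ δ) := by
            apply mul_le_mul_of_nonneg_left _ (by positivity)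
            have : 0 ≤ K1 * c := by positivity
            nlinarith
        _ = _ := by ring
    calc (N : ℝ) + 1 ≤ (1 / (η * Real.log 2)) * (1 / δ + K1 * c) * T ^ δ + 1 * T ^ δ := by
          linarith
      _ = D * T ^ δ := by rw [hD]; ring
  set Zm : ℝ := Real.exp ((Real.log T + K1 * c) / η) with hZm
  have hfib : Bd (pts A l T) ((C * (Real.exp (t * Real.log T + K2 * c)) * Zm ^ ε') *
      (D * T ^ δ) ^ m) := by
    apply hPb.fib k hmaps (by positivity)
    intro k0 _
    rcases Set.eq_empty_or_nonempty {x ∈ pts A l T | k x = k0} with hem | ⟨x1, hx1, hk1⟩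
    · rw [hem]
      exact Bd.empty (by positivity)
    have hpt1 := hpt x1 hx1
    have hk1' := hkpt x1 hx1
    rw [hk1] at hk1'
    have hpos : ∀ i, (1 : ℝ) ≤ ht (x1 i) := fun i => by
      exact_mod_cast ht_pos (rep_ne (hx1.1 i))
    have hb := hcyc A (fun i => (2 : ℝ) ^ k0 i) Zm (fun i => ⟨hA i, hent i⟩)
      (fun i => one_le_pow₀ (by norm_num)) (fun i => by
        rw [hZm, ← Real.log_le_iff_le_exp (by positivity)]
        exact (Real.log_le_log (by positivity) (hk1' i).1).trans (hpt1.1 i))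
    refine hb.mono ?_ ?_
    · rintro x ⟨hx, hkx⟩
      have h1 := hkpt x hx
      rw [hkx] at h1
      exact ⟨fun i => ⟨hx.1 i, h1 i⟩, hx.2.1, hx.2.2.1⟩
    · have h1 : ∏ i, (2 : ℝ) ^ k0 i ≤ Real.exp (t * Real.log T + K2 * c) := by
        calc ∏ i, (2 : ℝ) ^ k0 i ≤ ∏ i, (ht (x1 i) : ℝ) :=
              Finset.prod_le_prod (fun i _ => by positivity) fun i _ => (hk1' i).1
          _ = Real.exp (∑ i, Real.log (ht (x1 i))) := by
              rw [Real.exp_sum]
              apply Finset.prod_congr rfl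
              intro i _
              rw [Real.exp_log (by linarith [hpos i])]
          _ ≤ _ := Real.exp_le_exp.2 hpt1.2
      gcongr
  refine hfib.mono subset_rfl ?_
  have e1 : Real.exp (t * Real.log T + K2 * c) = Real.exp (K2 * c) * T ^ t := by
    rw [Real.exp_add, mul_comm, Real.rpow_def_of_pos hT0, mul_comm t]
  have e2 : Zm ^ ε' = Real.exp (K1 * c * (ε / 4)) * T ^ (ε / 4) := by
    rw [hZm, ← Real.exp_mul, Real.rpow_def_of_pos hT0, ← Real.exp_add, hε']
    congr 1
    field_simp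
    ring
  have e3 : (T ^ δ) ^ m = T ^ (ε / 4) := by
    rw [← Real.rpow_natCast, ← Real.rpow_mul hT0.le, hδ]
    congr 1
    field_simp
  calc (C * (Real.exp (t * Real.log T + K2 * c)) * Zm ^ ε') * (D * T ^ δ) ^ m
      = D ^ m * (C * Real.exp (K2 * c) * Real.exp (K1 * c * (ε / 4))) *
        (T ^ t * T ^ (ε / 4) * T ^ (ε / 4)) := by
        rw [e1, e2, mul_pow, e3]
        ring
    _ = D ^ m * (C * Real.exp (K2 * c) * Real.exp (K1 * c * (ε / 4))) * T ^ (t + ε / 2) := by
        rw [← Real.rpow_add hT0, ← Real.rpow_add hT0]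
        congr 2
        ring
    _ ≤ D ^ m * (C * Real.exp (K2 * c) * Real.exp (K1 * c * (ε / 4))) * T ^ (fuj l + ε) := by
        apply mul_le_mul_of_nonneg_left _ (by positivity)
        apply Real.rpow_le_rpow_of_exponent_le hT
        linarith

end Pool.Agent.K1H88.PG
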