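import Mathlib
import Pool.Agent.H548.WM.Hyp

/-! Vectors of length three: heights, cross products, counting of primitive vectors whose pairwise
cross products are small multiples of a given vector. -/

namespace Pool.Agent.K1H88.PG

open Matrix
open Pool.Agent.H548.WM (ht Rep le_ht' ht_le)

/-- Integer vectors of length three. -/
abbrev V := Fin 3 → ℤ

theorem dot3 {R : Type*} [CommRing R] (a b : Fin 3 → R) :
    a ⬝ᵥ b = a 0 * b 0 + a 1 * b 1 + a 2 * b 2 := by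
  rw [dotProduct, Fin.sum_univ_three]

theorem c0 {R : Type*} [CommRing R] (a b : Fin 3 → R) : (a ⨯₃ b) 0 = a 1 * b 2 - a 2 * b 1 := by
  rw [cross_apply]; rfl

theorem c1 {R : Type*} [CommRing R] (a b : Fin 3 → R) : (a ⨯₃ b) 1 = a 2 * b 0 - a 0 * b 2 := by
  rw [cross_apply]; rfl

theorem c2 {R : Type*} [CommRing R] (a b : Fin 3 → R) : (a ⨯₃ b) 2 = a 0 * b 1 - a 1 * b 0 := by
  rw [cross_apply]; rfl

theorem ext3 {R : Type*} {a b : Fin 3 → R} (h0 : a 0 = b 0) (h1 : a 1 = b 1) (h2 : a 2 = b 2) :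
    a = b := by
  funext i
  fin_cases i
  · exact h0
  · exact h1
  · exact h2

theorem dot_le (a b : V) : |a ⬝ᵥ b| ≤ 3 * ht a * ht b := by
  have h : ∀ i, |a i * b i| ≤ (ht a : ℤ) * ht b := fun i => by
    rw [abs_mul]
    exact mul_le_mul (le_ht' a i) (le_ht' b i) (abs_nonneg _) (Nat.cast_nonneg _)
  rw [dot3]
  have h0 := abs_le.1 (h 0)
  have h1 := abs_le.1 (h 1)
  have h2 := abs_le.1 (h 2)
  rw [abs_le]
  constructor <;> linarith [h0.1, h0.2, h1.1, h1.2, h2.1, h2.2]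

theorem ht_le_iff {v : V} {X : ℤ} (hX : 0 ≤ X) : (ht v : ℤ) ≤ X ↔ ∀ i, |v i| ≤ X := by
  constructor
  · intro h i
    exact (le_ht' v i).trans h
  · intro h
    have h1 : ht v ≤ X.toNat := ht_le fun i => by
      rw [Int.toNat_of_nonneg hX]
      exact h i
    have h2 : (ht v : ℤ) ≤ (X.toNat : ℤ) := by exact_mod_cast h1
    rwa [Int.toNat_of_nonneg hX] at h2

theorem cross_le (a b : V) : (ht (a ⨯₃ b) : ℤ) ≤ 2 * ht a * ht b := by
  rw [ht_le_iff (by positivity)]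
  have h : ∀ i j, |a i * b j| ≤ (ht a : ℤ) * ht b := fun i j => by
    rw [abs_mul]
    exact mul_le_mul (le_ht' a i) (le_ht' b j) (abs_nonneg _) (Nat.cast_nonneg _)
  intro i
  fin_cases i
  · have h0 := abs_le.1 (h 1 2)
    have h1 := abs_le.1 (h 2 1)
    change |(a ⨯₃ b) 0| ≤ _
    rw [c0, abs_le]
    constructor <;> linarith [h0.1, h0.2, h1.1, h1.2]
  · have h0 := abs_le.1 (h 2 0)
    have h1 := abs_le.1 (h 0 2)
    change |(a ⨯₃ b) 1| ≤ _
    rw [c1, abs_le]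
    constructor <;> linarith [h0.1, h0.2, h1.1, h1.2]
  · have h0 := abs_le.1 (h 0 1)
    have h1 := abs_le.1 (h 1 0)
    change |(a ⨯₃ b) 2| ≤ _
    rw [c2, abs_le]
    constructor <;> linarith [h0.1, h0.2, h1.1, h1.2]

theorem ht_add (a b : V) : (ht (a + b) : ℤ) ≤ ht a + ht b := by
  rw [ht_le_iff (by positivity)]
  intro i
  exact (abs_add_le _ _).trans (add_le_add (le_ht' a i) (le_ht' b i))

theorem ht_smul (c : ℤ) (a : V) : (ht (c • a) : ℤ) = |c| * ht a := by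
  apply le_antisymm
  · rw [ht_le_iff (by positivity)]
    intro i
    rw [Pi.smul_apply, smul_eq_mul, abs_mul]
    exact mul_le_mul_of_nonneg_left (le_ht' a i) (abs_nonneg _)
  · obtain ⟨i, hi⟩ := Pool.Agent.H548.WM.exists_ht (by norm_num) a
    rw [← hi, ← abs_mul]
    exact le_ht' (c • a) i

theorem ht_pos {v : V} (h : v ≠ 0) : 1 ≤ ht v := by
  by_contra hc
  have h0 : ht v = 0 := by omega
  apply h
  funext i
  have := le_ht' v i
  rw [h0] at this
  have h1 := abs_nonneg (v i)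
  have h2 : |v i| = 0 := le_antisymm this h1
  exact abs_eq_zero.1 h2

theorem bez {v : V} (h : Rep v) : ∃ c : V, c ⬝ᵥ v = 1 := by
  obtain ⟨h1, -⟩ := h
  have e1 := Int.gcd_eq_gcd_ab (v 0) (v 1)
  have e2 := Int.gcd_eq_gcd_ab (Int.gcd (v 0) (v 1)) (v 2)
  set a := Int.gcdA (v 0) (v 1)
  set b := Int.gcdB (v 0) (v 1)
  set c := Int.gcdA (Int.gcd (v 0) (v 1)) (v 2)
  set d := Int.gcdB (Int.gcd (v 0) (v 1)) (v 2)
  have h2 : ((Int.gcd (Int.gcd (v 0) (v 1)) (v 2) : ℕ) : ℤ) ∣ Finset.univ.gcd v := by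
    apply Finset.dvd_gcd
    intro i _
    have h3 : ((Int.gcd (Int.gcd (v 0) (v 1)) (v 2) : ℕ) : ℤ) ∣ (Int.gcd (v 0) (v 1) : ℤ) :=
      Int.gcd_dvd_left ..
    fin_cases i
    · exact h3.trans (Int.gcd_dvd_left ..)
    · exact h3.trans (Int.gcd_dvd_right ..)
    · exact Int.gcd_dvd_right ..
  rw [h1] at h2
  have h3 : ((Int.gcd (Int.gcd (v 0) (v 1)) (v 2) : ℕ) : ℤ) = 1 :=
    Int.eq_one_of_dvd_one (Int.natCast_nonneg _) h2
  rw [h3] at e2
  refine ⟨![c * a, c * b, d], ?_⟩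
  rw [dot3]
  change c * a * v 0 + c * b * v 1 + d * v 2 = 1
  rw [e1] at e2
  push_cast at e2
  linarith [e2]

theorem rep_ne {v : V} (h : Rep v) : v ≠ 0 := by
  rintro rfl
  obtain ⟨-, i, hi, -⟩ := h
  simp at hi

section Ident

variable {R : Type*} [CommRing R]

/-- `(c ⬝ b) a - (c ⬝ a) b` as a double cross product. -/
theorem cross_cross' (c a b : Fin 3 → R) :
    c ⨯₃ (a ⨯₃ b) = (c ⬝ᵥ b) • a - (c ⬝ᵥ a) • b := by
  apply ext3 <;> simp only [c0, c1, c2, dot3, Pi.sub_apply, Pi.smul_apply, smul_eq_mul] <;> ring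

/-- Four vectors. -/
theorem four (c w a b : Fin 3 → R) :
    (c ⬝ᵥ w) • (a ⨯₃ b) = (b ⬝ᵥ (w ⨯₃ a)) • c - (c ⬝ᵥ a) • (b ⨯₃ w) - (c ⬝ᵥ b) • (w ⨯₃ a) := by
  apply ext3 <;> simp only [c0, c1, c2, dot3, Pi.sub_apply, Pi.smul_apply, smul_eq_mul] <;> ring

theorem cof (M : Matrix (Fin 3) (Fin 3) R) (a b : Fin 3 → R) :
    M *ᵥ ((Mᵀ *ᵥ a) ⨯₃ (Mᵀ *ᵥ b)) = M.det • (a ⨯₃ b) := by
  apply ext3 <;>
    simp only [c0, c1, c2, mulVec, dot3, det_fin_three, Matrix.transpose_apply, Pi.smul_apply,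
      smul_eq_mul] <;> ring

end Ident

/-- Vectors parallel to a primitive vector. -/
theorem par {y v : V} (hy : Rep y) (h : y ⨯₃ v = 0) : ∃ n : ℤ, v = n • y := by
  obtain ⟨c, hc⟩ := bez hy
  refine ⟨c ⬝ᵥ v, ?_⟩
  have h1 := cross_cross' c y v
  rw [h, hc, one_smul, LinearMap.map_zero] at h1
  exact (sub_eq_zero.1 h1.symm).symm

/-- Parallel primitive normalised vectors are equal. -/
theorem par_eq {y z : V} (hy : Rep y) (hz : Rep z) (h : y ⨯₃ z = 0) : y = z := by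
  obtain ⟨n, hn⟩ := par hy h
  obtain ⟨c, hc⟩ := bez hz
  have h1 : n * (c ⬝ᵥ y) = 1 := by
    rw [← hc, hn, dotProduct_smul, smul_eq_mul]
  have h2 : n = 1 ∨ n = -1 := Int.isUnit_iff.1 (IsUnit.of_mul_eq_one _ h1)
  rcases h2 with h2 | h2
  · rw [hn, h2, one_smul]
  · exfalso
    rw [h2] at hn
    obtain ⟨-, i, hi, hi'⟩ := hy
    obtain ⟨-, j, hj, hj'⟩ := hz
    have e : ∀ k, z k = - y k := fun k => by rw [hn]; simp
    rcases lt_trichotomy i j with hij | hij | hij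
    · have := hj' i hij
      rw [e] at this
      omega
    · subst hij
      rw [e] at hj
      omega
    · have := hi' j hij
      rw [e] at hj
      omega

end Pool.Agent.K1H88.PG
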